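import Pool.Agent.ECT.St

/-!
# ECT AsT: from the colouring to the decomposition
-/

set_option autoImplicit false

namespace Pool.Agent.ECT

open SimpleGraph Pool.Agent.ECH Pool.Agent.ECM Pool.Agent.CEC

private theorem AsT_two (t : ZMod 2) : t + t = 0 := by
  have : ∀ t : ZMod 2, t + t = 0 := by decide
  exact this t

private theorem AsT_seg {V : Type} [Fintype V] [DecidableEq V] (z : V → ZMod 2) (S : V → Prop)
    [DecidablePred S] (b : V → ℕ) (m : ℕ) (x x' : V)
    (hz : ∑ y, (if S y then z y else 0) = 0) (hx' : S x')
    (hinj : ∀ y, S y → b y = b x' → y = x') (hlt : ∀ y, S y → b y < m)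
    (hst : b x' = (b x + 1) % m) (hxlt : b x < m) :
    ∑ y, (if S y ∧ b y ≤ b x' then z y else 0) =
      ∑ y, (if S y ∧ b y ≤ b x then z y else 0) + z x' := by
  have hsing : ∑ y, (if y = x' then z y else 0) = z x' := by
    rw [Finset.sum_ite_eq' Finset.univ x' z]
    simp
  rcases Nat.lt_or_ge (b x + 1) m with hc | hc
  · rw [Nat.mod_eq_of_lt hc] at hst
    rw [← hsing, ← Finset.sum_add_distrib]
    refine Finset.sum_congr rfl fun y _ => ?_
    by_cases hy : y = x'
    · subst hy
      have h1 : ¬ (b y ≤ b x) := by omega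
      simp [h1, hx']
    · by_cases hS : S y
      · have hne : b y ≠ b x' := fun e => hy (hinj y hS e)
        have h2 : (b y ≤ b x') ↔ (b y ≤ b x) := by omega
        simp [hy, h2]
      · simp [hy, hS]
  · have he : b x + 1 = m := by omega
    rw [he, Nat.mod_self] at hst
    have h3 : ∑ y, (if S y ∧ b y ≤ b x then z y else 0) = 0 := by
      refine Eq.trans (Finset.sum_congr rfl fun y _ => ?_) hz
      by_cases hS : S y
      · have h5 := hlt y hS
        have h6 : b y ≤ b x := by omega
        simp [hS, h6]
      · simp [hS]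
    rw [h3, zero_add, ← hsing]
    refine Finset.sum_congr rfl fun y _ => ?_
    by_cases hy : y = x'
    · subst hy
      simp [hx']
    · by_cases hS : S y
      · have hne : b y ≠ b x' := fun e => hy (hinj y hS e)
        have h4 : ¬ (b y ≤ b x') := by omega
        simp [hy, h4]
      · simp [hy, hS]

private theorem AsT_key0 {V : Type} [Fintype V] [DecidableEq V] (a b : V → ℕ) (s : V → Bool)
    (ha : Function.Injective a) (hb : ∀ x y, s x = s y → b x = b y → x = y) (z : V → ZMod 2)
    (hz0 : ∑ y, (if s y = false then z y else 0) = 0)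
    (hz1 : ∑ y, (if s y = true then z y else 0) = 0) (x : V) (hsx : s x = false) :
    ∑ y, Q2 a b s (some x) (some y) * z y =
      ∑ y, (if True ∧ a y ≤ a x then z y else 0) +
      ∑ y, (if s y = s x ∧ b y ≤ b x then z y else 0) +
      ∑ y, z y * ((a y : ZMod 2) + (b y : ZMod 2)) := by
  have h2 : (2 : ZMod 2) = 0 := by decide
  have key : ∀ y, Q2 a b s (some x) (some y) * z y =
      (if True ∧ a y ≤ a x then z y else 0) + (if s y = s x ∧ b y ≤ b x then z y else 0) +
      z y * ((a y : ZMod 2) + (b y : ZMod 2)) +
      ((a x : ZMod 2) + (b x : ZMod 2)) * (if s y = false then z y else 0) +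
      (if s y = true then z y else 0) := by
    intro y
    by_cases hy : y = x
    · subst hy
      simp only [Q2, if_true, hsx, le_refl, and_self, zero_mul]
      simp only [Bool.false_eq_true, if_false]
      linear_combination (-(z y) - z y * ((a y : ZMod 2) + (b y : ZMod 2))) * h2
    · have hxy : ¬ x = y := fun e => hy e.symm
      have hay : a y ≠ a x := fun e => hy (ha e)
      rcases hsy : s y with _ | _
      · have hby : b y ≠ b x := fun e => hy (hb y x (hsy.trans hsx.symm) e)
        have e1 : (if True ∧ a y ≤ a x then z y else 0) =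
            (if a y < a x then (1 : ZMod 2) else 0) * z y := by
          rcases lt_or_gt_of_ne hay with h | h
          · rw [if_pos ⟨trivial, h.le⟩, if_pos h, one_mul]
          · rw [if_neg (fun e => absurd e.2 (not_le.mpr h)), if_neg (not_lt.mpr h.le), zero_mul]
        have e2 : (if false = s x ∧ b y ≤ b x then z y else 0) =
            (if b y < b x then (1 : ZMod 2) else 0) * z y := by
          rcases lt_or_gt_of_ne hby with h | h
          · rw [if_pos ⟨hsx.symm, h.le⟩, if_pos h, one_mul]
          · rw [if_neg (fun e => absurd e.2 (not_le.mpr h)), if_neg (not_lt.mpr h.le), zero_mul]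
        rw [e1, e2]
        simp only [Q2, if_neg hxy, hsx, hsy, and_self, if_true, Bool.false_eq_true, if_false]
        ring
      · have e1 : (if True ∧ a y ≤ a x then z y else 0) =
            (1 + (if a x < a y then (1 : ZMod 2) else 0)) * z y := by
          rcases lt_or_gt_of_ne hay with h | h
          · rw [if_pos ⟨trivial, h.le⟩, if_neg (not_lt.mpr h.le)]
            ring
          · rw [if_neg (fun e => absurd e.2 (not_le.mpr h)), if_pos h]
            linear_combination (-(z y)) * h2
        rw [e1]
        simp only [Q2, if_neg hxy, hsx, hsy, and_self, if_true, Bool.true_eq_false, and_false,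
          false_and, if_false]
        linear_combination (-(z y)) * h2
  rw [Finset.sum_congr rfl (fun y _ => key y), Finset.sum_add_distrib, Finset.sum_add_distrib,
    Finset.sum_add_distrib, Finset.sum_add_distrib, ← Finset.mul_sum, hz0, hz1, mul_zero,
    add_zero, add_zero]

private theorem AsT_key1 {V : Type} [Fintype V] [DecidableEq V] (a b : V → ℕ) (s : V → Bool)
    (ha : Function.Injective a) (hb : ∀ x y, s x = s y → b x = b y → x = y) (z : V → ZMod 2)
    (hz0 : ∑ y, (if s y = false then z y else 0) = 0) (x : V) (hsx : s x = true) :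
    ∑ y, Q2 a b s (some x) (some y) * z y =
      ∑ y, (if True ∧ a y ≤ a x then z y else 0) +
      ∑ y, (if s y = s x ∧ b y ≤ b x then z y else 0) := by
  have h2 : (2 : ZMod 2) = 0 := by decide
  have key : ∀ y, Q2 a b s (some x) (some y) * z y =
      (if True ∧ a y ≤ a x then z y else 0) + (if s y = s x ∧ b y ≤ b x then z y else 0) +
      ((a x : ZMod 2) + (b x : ZMod 2)) * (if s y = false then z y else 0) := by
    intro y
    by_cases hy : y = x
    · subst hy
      simp only [Q2, if_true, hsx, le_refl, and_self, zero_mul]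
      simp only [Bool.true_eq_false, if_false]
      linear_combination (-(z y)) * h2
    · have hxy : ¬ x = y := fun e => hy e.symm
      have hay : a y ≠ a x := fun e => hy (ha e)
      have e1 : (if True ∧ a y ≤ a x then z y else 0) =
          (if a y < a x then (1 : ZMod 2) else 0) * z y := by
        rcases lt_or_gt_of_ne hay with h | h
        · rw [if_pos ⟨trivial, h.le⟩, if_pos h, one_mul]
        · rw [if_neg (fun e => absurd e.2 (not_le.mpr h)), if_neg (not_lt.mpr h.le), zero_mul]
      rcases hsy : s y with _ | _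
      · rw [e1]
        simp only [Q2, if_neg hxy, hsx, hsy, and_self, if_true, Bool.true_eq_false,
          Bool.false_eq_true, false_and, if_false]
        ring
      · have hby : b y ≠ b x := fun e => hy (hb y x (hsy.trans hsx.symm) e)
        have e2 : (if true = s x ∧ b y ≤ b x then z y else 0) =
            (if b y < b x then (1 : ZMod 2) else 0) * z y := by
          rcases lt_or_gt_of_ne hby with h | h
          · rw [if_pos ⟨hsx.symm, h.le⟩, if_pos h, one_mul]
          · rw [if_neg (fun e => absurd e.2 (not_le.mpr h)), if_neg (not_lt.mpr h.le), zero_mul]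
        rw [e1, e2]
        simp only [Q2, if_neg hxy, hsx, hsy, and_self, Bool.true_eq_false, and_false,
          false_and, if_false]
        ring
  rw [Finset.sum_congr rfl (fun y _ => key y), Finset.sum_add_distrib, Finset.sum_add_distrib,
    ← Finset.mul_sum, hz0, mul_zero, add_zero]

set_option maxRecDepth 100000 in
private theorem AsT_dec : ∀ A B u : K, u ≠ 0 → om u (A + B) = 0 →
    ((B = A ∧ B + u = A + u ∧ B ≠ B + u) ∨ (B = A + u ∧ B + u = A ∧ B ≠ B + u)) := by
  unfold om K
  decide

theorem thm_AsT (hMx : Pool.Agent.ECH.St_Mx) : St_AsT := by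
  intro V _ _ α β a b s hR hα hβ v hgood hnone hzero
  have hn1 : ∑ y : V, (if s y = true then (v (some y)).1 else 0) = 0 := by
    have h := congrArg Prod.fst hnone
    simp only [L, Fintype.sum_option, Q2, zero_mul, zero_add, Prod.fst_zero, ite_mul,
      one_mul] at h
    exact h
  have hn2 : ∑ y : V, (if s y = true then (v (some y)).2 else 0) = 0 := by
    have h := congrArg Prod.snd hnone
    simp only [L, Fintype.sum_option, Q2, zero_mul, zero_add, Prod.snd_zero, ite_mul,
      one_mul] at h
    exact h
  have hf1 : ∑ y : V, (if s y = false then (v (some y)).1 else 0) = 0 := by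
    have h := congrArg Prod.fst hzero
    rw [Prod.fst_sum] at h
    refine Eq.trans (Finset.sum_congr rfl fun y _ => ?_) h
    split_ifs <;> rfl
  have hf2 : ∑ y : V, (if s y = false then (v (some y)).2 else 0) = 0 := by
    have h := congrArg Prod.snd hzero
    rw [Prod.snd_sum] at h
    refine Eq.trans (Finset.sum_congr rfl fun y _ => ?_) h
    split_ifs <;> rfl
  have htot : ∀ z : V → ZMod 2, ∑ y, (if s y = false then z y else 0) = 0 →
      ∑ y, (if s y = true then z y else 0) = 0 → ∑ y, (if True then z y else 0) = 0 := by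
    intro z h0 h1
    have e : ∀ y, (if True then z y else 0) =
        (if s y = false then z y else 0) + (if s y = true then z y else 0) := by
      intro y
      rcases s y with _ | _ <;> simp
    rw [Finset.sum_congr rfl (fun y _ => e y), Finset.sum_add_distrib, h0, h1, add_zero]
  have hcl : ∀ (z : V → ZMod 2), ∑ y, (if s y = false then z y else 0) = 0 →
      ∑ y, (if s y = true then z y else 0) = 0 → ∀ x, ∑ y, (if s y = s x then z y else 0) = 0 := by
    intro z h0 h1 x
    rcases s x with _ | _
    · exact h0
    · exact h1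
  have hPA : ∀ z : V → ZMod 2, ∑ y, (if s y = false then z y else 0) = 0 →
      ∑ y, (if s y = true then z y else 0) = 0 → ∀ x,
      ∑ y, (if True ∧ a y ≤ a (α x) then z y else 0) =
        ∑ y, (if True ∧ a y ≤ a x then z y else 0) + z (α x) := by
    intro z h0 h1 x
    exact AsT_seg z (fun _ => True) a (Fintype.card V) x (α x) (htot z h0 h1) trivial
      (fun y _ e => hα.inj e) (fun y _ => hα.lt y) (hα.step x) (hα.lt x)
  have hPB : ∀ z : V → ZMod 2, ∑ y, (if s y = false then z y else 0) = 0 →
      ∑ y, (if s y = true then z y else 0) = 0 → ∀ x,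
      ∑ y, (if s y = s x ∧ b y ≤ b (β x) then z y else 0) =
        ∑ y, (if s y = s x ∧ b y ≤ b x then z y else 0) + z (β x) := by
    intro z h0 h1 x
    refine AsT_seg z (fun y => s y = s x) b _ x (β x) (hcl z h0 h1 x) (hβ.cls x)
      (fun y hy e => hβ.inj y (β x) (hy.trans (hβ.cls x).symm) e) (fun y hy => ?_) (hβ.step x)
      (hβ.lt x)
    have h := hβ.lt y
    rw [hy] at h
    exact h
  have hkey : ∀ (z : V → ZMod 2) (k : ZMod 2), ∑ y, (if s y = false then z y else 0) = 0 →
      ∑ y, (if s y = true then z y else 0) = 0 → ∀ x,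
      Q2 a b s (some x) none * k + ∑ y, Q2 a b s (some x) (some y) * z y =
        (∑ y, (if True ∧ a y ≤ a x then z y else 0) +
          ∑ y, z y * ((a y : ZMod 2) + (b y : ZMod 2))) +
        (∑ y, (if s y = s x ∧ b y ≤ b x then z y else 0) +
          (if s x = true then k + ∑ y, z y * ((a y : ZMod 2) + (b y : ZMod 2)) else 0)) := by
    intro z k h0 h1 x
    rcases hsx : s x with _ | _
    · have h := AsT_key0 a b s hα.inj hβ.inj z h0 h1 x hsx
      rw [hsx] at h
      have e : Q2 a b s (some x) none = 0 := by
        simp [Q2, hsx]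
      rw [e, h, if_neg (by simp)]
      ring
    · have h := AsT_key1 a b s hα.inj hβ.inj z h0 x hsx
      rw [hsx] at h
      have e : Q2 a b s (some x) none = 1 := by
        simp [Q2, hsx]
      rw [e, h, if_pos rfl]
      linear_combination (-1 : ZMod 2) * AsT_two (∑ y, z y * ((a y : ZMod 2) + (b y : ZMod 2)))
  refine hMx V α β hR K
    (fun x => ((∑ y, (if True ∧ a y ≤ a x then (v (some y)).1 else 0) +
          ∑ y, (v (some y)).1 * ((a y : ZMod 2) + (b y : ZMod 2))),
        (∑ y, (if True ∧ a y ≤ a x then (v (some y)).2 else 0) +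
          ∑ y, (v (some y)).2 * ((a y : ZMod 2) + (b y : ZMod 2)))))
    (fun x => ((∑ y, (if s y = s x ∧ b y ≤ b x then (v (some y)).1 else 0) +
          (if s x = true then (v none).1 +
            ∑ y, (v (some y)).1 * ((a y : ZMod 2) + (b y : ZMod 2)) else 0)),
        (∑ y, (if s y = s x ∧ b y ≤ b x then (v (some y)).2 else 0) +
          (if s x = true then (v none).2 +
            ∑ y, (v (some y)).2 * ((a y : ZMod 2) + (b y : ZMod 2)) else 0)))) ?_
  intro x y z hy hz
  have hA1 := hPA (fun y => (v (some y)).1) hf1 hn1 y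
  have hA2 := hPA (fun y => (v (some y)).2) hf2 hn2 y
  have hB1 := hPB (fun y => (v (some y)).1) hf1 hn1 z
  have hB2 := hPB (fun y => (v (some y)).2) hf2 hn2 z
  have hsz : s z = s x := by
    rw [← hz]
    exact (hβ.cls z).symm
  have hX1 := hkey (fun y => (v (some y)).1) (v none).1 hf1 hn1 x
  have hX2 := hkey (fun y => (v (some y)).2) (v none).2 hf2 hn2 x
  rw [hy] at hA1 hA2
  rw [hz] at hB1 hB2
  simp only [hsz] at hB1 hB2 ⊢
  obtain ⟨hne, hom⟩ := hgood x
  have hLx : L (Q2 a b s) v (some x) =
      ((∑ y, (if True ∧ a y ≤ a x then (v (some y)).1 else 0) +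
          ∑ y, (v (some y)).1 * ((a y : ZMod 2) + (b y : ZMod 2))),
        (∑ y, (if True ∧ a y ≤ a x then (v (some y)).2 else 0) +
          ∑ y, (v (some y)).2 * ((a y : ZMod 2) + (b y : ZMod 2)))) +
      ((∑ y, (if s y = s x ∧ b y ≤ b x then (v (some y)).1 else 0) +
          (if s x = true then (v none).1 +
            ∑ y, (v (some y)).1 * ((a y : ZMod 2) + (b y : ZMod 2)) else 0)),
        (∑ y, (if s y = s x ∧ b y ≤ b x then (v (some y)).2 else 0) +
          (if s x = true then (v none).2 +
            ∑ y, (v (some y)).2 * ((a y : ZMod 2) + (b y : ZMod 2)) else 0))) := by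
    unfold L
    rw [Fintype.sum_option, Fintype.sum_option, hX1, hX2]
    rfl
  rw [hLx] at hom
  have hfin := AsT_dec _ _ _ hne hom
  have hyA : ((∑ w, (if True ∧ a w ≤ a y then (v (some w)).1 else 0) +
          ∑ w, (v (some w)).1 * ((a w : ZMod 2) + (b w : ZMod 2))),
        (∑ w, (if True ∧ a w ≤ a y then (v (some w)).2 else 0) +
          ∑ w, (v (some w)).2 * ((a w : ZMod 2) + (b w : ZMod 2)))) =
      (((∑ w, (if True ∧ a w ≤ a x then (v (some w)).1 else 0) +
          ∑ w, (v (some w)).1 * ((a w : ZMod 2) + (b w : ZMod 2))),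
        (∑ w, (if True ∧ a w ≤ a x then (v (some w)).2 else 0) +
          ∑ w, (v (some w)).2 * ((a w : ZMod 2) + (b w : ZMod 2)))) : K) + v (some x) := by
    refine Prod.ext ?_ ?_
    · rw [Prod.fst_add]
      show _ = _ + (v (some x)).1
      linear_combination (-1 : ZMod 2) * hA1 + (-1 : ZMod 2) * AsT_two ((v (some x)).1)
    · rw [Prod.snd_add]
      show _ = _ + (v (some x)).2
      linear_combination (-1 : ZMod 2) * hA2 + (-1 : ZMod 2) * AsT_two ((v (some x)).2)
  have hzB : ((∑ y, (if s y = s x ∧ b y ≤ b z then (v (some y)).1 else 0) +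
          (if s x = true then (v none).1 +
            ∑ y, (v (some y)).1 * ((a y : ZMod 2) + (b y : ZMod 2)) else 0)),
        (∑ y, (if s y = s x ∧ b y ≤ b z then (v (some y)).2 else 0) +
          (if s x = true then (v none).2 +
            ∑ y, (v (some y)).2 * ((a y : ZMod 2) + (b y : ZMod 2)) else 0))) =
      (((∑ y, (if s y = s x ∧ b y ≤ b x then (v (some y)).1 else 0) +
          (if s x = true then (v none).1 +
            ∑ y, (v (some y)).1 * ((a y : ZMod 2) + (b y : ZMod 2)) else 0)),
        (∑ y, (if s y = s x ∧ b y ≤ b x then (v (some y)).2 else 0) +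
          (if s x = true then (v none).2 +
            ∑ y, (v (some y)).2 * ((a y : ZMod 2) + (b y : ZMod 2)) else 0))) : K) +
        v (some x) := by
    refine Prod.ext ?_ ?_
    · rw [Prod.fst_add]
      show _ = _ + (v (some x)).1
      linear_combination (-1 : ZMod 2) * hB1 + (-1 : ZMod 2) * AsT_two ((v (some x)).1)
    · rw [Prod.snd_add]
      show _ = _ + (v (some x)).2
      linear_combination (-1 : ZMod 2) * hB2 + (-1 : ZMod 2) * AsT_two ((v (some x)).2)
  rw [hyA, hzB]
  exact hfin

end Pool.Agent.ECT
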