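import Pool.Agent.ECT.St

/-!
# ECT, module AuT (helper28): the conditions at the three vertices are automatic

MP_854819_co. Variant of `Pool/Agent/ECM/Au.lean` with the special vertex `t`.
-/

set_option autoImplicit false

namespace Pool.Agent.ECT

open Finset Pool.Agent.ECH Pool.Agent.ECM

private theorem AuT_add_self (a : ZMod 2) : a + a = 0 := by
  revert a
  decide

private theorem AuT_eq_of_add (a b : ZMod 2) (h : a + b = 0) : a = b := by
  revert a b
  decide

/-- the sum of a symmetric function with zero diagonal -/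
private theorem AuT_sym {V : Type} [Fintype V] (f : V → V → ZMod 2) (h1 : ∀ x y, f x y = f y x)
    (h2 : ∀ x, f x x = 0) : ∑ x, ∑ y, f x y = 0 := by
  rw [← Finset.sum_product']
  refine Finset.sum_involution (fun p _ => (p.2, p.1)) ?_ ?_ ?_ ?_
  · rintro ⟨x, y⟩ -
    show f x y + f y x = 0
    rw [h1 y x]
    exact AuT_add_self _
  · rintro ⟨x, y⟩ - hne heq
    apply hne
    have h3 : y = x := congrArg Prod.fst heq
    subst h3
    exact h2 _
  · intro p _
    exact Finset.mem_product.2 ⟨Finset.mem_univ _, Finset.mem_univ _⟩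
  · intro p _
    rfl

private theorem AuT_om : ∀ k p : K, k ≠ 0 →
    om k p = 1 + (if p = k then 1 else 0) + (if p = 0 then 1 else 0) := by
  decide

private theorem AuT_omL {V : Type} [Fintype V] (Q : V → V → ZMod 2) (v : V → K) (k : K) (x : V) :
    om k (L Q v x) = ∑ y, Q x y * om k (v y) := by
  show k.1 * (∑ y, Q x y * (v y).2) + k.2 * (∑ y, Q x y * (v y).1) = _
  rw [Finset.mul_sum, Finset.mul_sum, ← Finset.sum_add_distrib]
  refine Finset.sum_congr rfl fun y _ => ?_
  show k.1 * (Q x y * (v y).2) + k.2 * (Q x y * (v y).1) = Q x y * (k.1 * (v y).2 + k.2 * (v y).1)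
  ring

section

variable {W : Type} [Fintype W] [DecidableEq W] (Q : W → W → ZMod 2) (t : W) (v : W → K)

/-- the indicator of the color `k` outside of `t` -/
private def AuT_e (k : K) (z : W) : ZMod 2 := if z ≠ t ∧ v z = k then 1 else 0

/-- the number of the neighbours with the color `k`, modulo two -/
private def AuT_R (k : K) (w : W) : ZMod 2 := ∑ y, AuT_e t v k y * Q w y

/-- the expansion of `om k (L Q v w)` -/
private theorem AuT_exp (hQ : Pool.Agent.ECT.EvT Q t) (k : K) (hk : k ≠ 0) (w : W) :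
    om k (L Q v w) = Q w t * om k (v t) + AuT_R Q t v k w + AuT_R Q t v 0 w := by
  have h1 : ∀ y, Q w y * om k (v y) = (if y = t then Q w y * om k (v y) + Q w y else 0) + Q w y +
      AuT_e t v k y * Q w y + AuT_e t v 0 y * Q w y := by
    intro y
    unfold AuT_e
    by_cases h : y = t
    · simp only [h, ne_eq, not_true_eq_false, false_and, if_false, if_true, zero_mul, add_zero]
      rw [add_assoc, AuT_add_self, add_zero]
    · rw [AuT_om k (v y) hk, if_neg h]
      by_cases h2 : v y = k
      · have h3 : v y ≠ 0 := by rw [h2]; exact hk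
        rw [if_pos h2, if_neg h3, if_pos ⟨h, h2⟩, if_neg (fun h' => h3 h'.2)]
        ring
      · by_cases h3 : v y = 0
        · rw [if_neg h2, if_pos h3, if_neg (fun h' => h2 h'.2), if_pos ⟨h, h3⟩]
          ring
        · rw [if_neg h2, if_neg h3, if_neg (fun h' => h2 h'.2), if_neg (fun h' => h3 h'.2)]
          ring
  rw [AuT_omL, Finset.sum_congr rfl fun y _ => h1 y, Finset.sum_add_distrib,
    Finset.sum_add_distrib, Finset.sum_add_distrib, Finset.sum_ite_eq' Finset.univ t,
    if_pos (Finset.mem_univ t)]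
  have h2 : ∑ y, Q w y = Q w t := by
    by_cases h : w = t
    · rw [h, hQ.degt, hQ.diag]
    · exact hQ.deg w h
  rw [h2, add_assoc (Q w t * om k (v t)) (Q w t) (Q w t), AuT_add_self, add_zero]
  rfl

/-- the sum of the conditions over the vertices with the color `k` -/
private theorem AuT_star (hQ : Pool.Agent.ECT.EvT Q t) (k : K) (hk : k ≠ 0)
    (ht : L Q v t = 0) :
    ∑ z, AuT_e t v k z * om k (L Q v z) =
      om k (v t) * AuT_R Q t v 0 t + ∑ z, AuT_e t v 0 z * AuT_R Q t v k z := by
  have h0 : AuT_R Q t v k t = AuT_R Q t v 0 t := by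
    have h := AuT_exp Q t v hQ k hk t
    rw [ht, hQ.diag, zero_mul, zero_add] at h
    have h' : om k (0 : K) = 0 := by
      show k.1 * 0 + k.2 * 0 = 0
      ring
    rw [h'] at h
    exact AuT_eq_of_add _ _ h.symm
  have h1 : ∀ z, AuT_e t v k z * om k (L Q v z) = om k (v t) * (AuT_e t v k z * Q t z) +
      AuT_e t v k z * AuT_R Q t v k z + AuT_e t v k z * AuT_R Q t v 0 z := by
    intro z
    rw [AuT_exp Q t v hQ k hk z, hQ.symm z t]
    ring
  rw [Finset.sum_congr rfl fun z _ => h1 z, Finset.sum_add_distrib, Finset.sum_add_distrib,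
    ← Finset.mul_sum]
  have h2 : ∑ z, AuT_e t v k z * Q t z = AuT_R Q t v 0 t := h0
  have h3 : ∑ z, AuT_e t v k z * AuT_R Q t v k z = 0 := by
    have h4 : ∀ z, AuT_e t v k z * AuT_R Q t v k z =
        ∑ y, AuT_e t v k z * AuT_e t v k y * Q z y := by
      intro z
      unfold AuT_R
      rw [Finset.mul_sum]
      exact Finset.sum_congr rfl fun y _ => by ring
    rw [Finset.sum_congr rfl fun z _ => h4 z]
    refine AuT_sym _ (fun x y => ?_) fun x => ?_
    · rw [hQ.symm x y]
      ring
    · rw [hQ.diag x, mul_zero]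
  have h5 : ∑ z, AuT_e t v k z * AuT_R Q t v 0 z = ∑ z, AuT_e t v 0 z * AuT_R Q t v k z := by
    unfold AuT_R
    simp only [Finset.mul_sum]
    rw [Finset.sum_comm]
    refine Finset.sum_congr rfl fun y _ => Finset.sum_congr rfl fun z _ => ?_
    rw [hQ.symm z y]
    ring
  rw [h2, h3, h5, add_zero]

private theorem AuT_one (hQ : Pool.Agent.ECT.EvT Q t) (ht : L Q v t = 0) (p : W) (hpt : p ≠ t)
    (hk : v p ≠ 0) (h : ∀ z, z ≠ t → z ≠ p → v z = v p → om (v z) (L Q v z) = 0)
    (h0 : om (v p) (v t) * AuT_R Q t v 0 t +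
      ∑ z, AuT_e t v 0 z * AuT_R Q t v (v p) z = 0) :
    om (v p) (L Q v p) = 0 := by
  have h1 := AuT_star Q t v hQ (v p) hk ht
  rw [h0, Finset.sum_eq_single p] at h1
  · unfold AuT_e at h1
    rw [if_pos ⟨hpt, rfl⟩, one_mul] at h1
    exact h1
  · intro z _ hz
    unfold AuT_e
    by_cases hc : z ≠ t ∧ v z = v p
    · rw [if_pos hc, one_mul]
      have h2 := h z hc.1 hz hc.2
      rw [hc.2] at h2
      exact h2
    · rw [if_neg hc, zero_mul]
  · intro hp
    exact absurd (Finset.mem_univ p) hp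

end

private theorem AuT_col {V : Type} [DecidableEq V] (v : V → K) (t : V × V × V) (h1 : v t.1 = k0)
    (h2 : v t.2.1 = k1) (h3 : v t.2.2 = k2) (p : V) (hp : p ∈ Ts t) (z : V) (hz : z ≠ p)
    (hc : v z = v p) : z ∉ Ts t := by
  intro hz2
  have e01 : k0 ≠ k1 := by decide
  have e02 : k0 ≠ k2 := by decide
  have e12 : k1 ≠ k2 := by decide
  have hp' : p = t.1 ∨ p = t.2.1 ∨ p = t.2.2 := by
    simpa [Ts] using hp
  have hz' : z = t.1 ∨ z = t.2.1 ∨ z = t.2.2 := by
    simpa [Ts] using hz2
  rcases hp' with hp' | hp' | hp' <;> rcases hz' with hz' | hz' | hz' <;> rw [hp', hz'] at hc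
  · exact hz (hz'.trans hp'.symm)
  · rw [h1, h2] at hc
    exact e01 hc.symm
  · rw [h1, h3] at hc
    exact e02 hc.symm
  · rw [h1, h2] at hc
    exact e01 hc
  · exact hz (hz'.trans hp'.symm)
  · rw [h2, h3] at hc
    exact e12 hc.symm
  · rw [h1, h3] at hc
    exact e02 hc
  · rw [h2, h3] at hc
    exact e12 hc
  · exact hz (hz'.trans hp'.symm)

theorem thm_AuT : St_AuT := by
  intro W _ _ Q t hQ v u htu h1 h2 h3 ht
  refine ⟨?_, ?_⟩
  · intro hv hE z hzt
    refine ⟨hv z hzt, ?_⟩
    by_cases hz : z ∈ Ts u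
    · have he : ∀ y, AuT_e t v 0 y = 0 := by
        intro y
        unfold AuT_e
        exact if_neg fun h => hv y h.1 h.2
      refine AuT_one Q t v hQ ht z hzt (hv z hzt)
        (fun y hyt hy hc => hE y (AuT_col v u h1 h2 h3 z hz y hy hc) hyt) ?_
      have e1 : AuT_R Q t v 0 t = 0 := by
        unfold AuT_R
        exact Finset.sum_eq_zero fun y _ => by rw [he y, zero_mul]
      have e2 : ∑ y, AuT_e t v 0 y * AuT_R Q t v (v z) y = 0 :=
        Finset.sum_eq_zero fun y _ => by rw [he y, zero_mul]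
      rw [e1, e2, mul_zero, add_zero]
    · exact hE z hz hzt
  · intro x hxt hx hL hv hE z hzt hzx
    refine ⟨hv z hzt hzx, ?_⟩
    by_cases hz : z ∈ Ts u
    · have hk : v z ≠ 0 := hv z hzt hzx
      have he : ∀ y, AuT_e t v 0 y = if y = x then 1 else 0 := by
        intro y
        unfold AuT_e
        by_cases hy : y = x
        · rw [if_pos hy, if_pos ⟨by rw [hy]; exact hxt, by rw [hy]; exact hx⟩]
        · rw [if_neg hy, if_neg fun h => hv y h.1 hy h.2]
      have e0 : ∀ w, AuT_R Q t v 0 w = Q w x := by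
        intro w
        unfold AuT_R
        rw [Finset.sum_congr rfl fun y _ => by rw [he y, ite_mul, one_mul, zero_mul],
          Finset.sum_ite_eq' Finset.univ x, if_pos (Finset.mem_univ x)]
      refine AuT_one Q t v hQ ht z hzt hk (fun y hyt hy hc =>
        hE y (AuT_col v u h1 h2 h3 z hz y hy hc) hyt ?_) ?_
      · intro hyx
        rw [hyx, hx] at hc
        exact hk hc.symm
      · have e2 : ∑ y, AuT_e t v 0 y * AuT_R Q t v (v z) y = AuT_R Q t v (v z) x := by
          rw [Finset.sum_congr rfl fun y _ => by rw [he y, ite_mul, one_mul, zero_mul],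
            Finset.sum_ite_eq' Finset.univ x, if_pos (Finset.mem_univ x)]
        have e3 := AuT_exp Q t v hQ (v z) hk x
        rw [hL, e0 x, hQ.diag x, add_zero] at e3
        have h' : om (v z) (0 : K) = 0 := by
          show (v z).1 * 0 + (v z).2 * 0 = 0
          ring
        rw [h'] at e3
        have e4 := AuT_eq_of_add _ _ e3.symm
        rw [e2, e0 t, ← e4, hQ.symm x t, mul_comm (om (v z) (v t)) (Q t x)]
        exact AuT_add_self _
    · exact hE z hz hzt hzx

end Pool.Agent.ECT
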