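import Pool.Agent.ECT.St

/-!
# ECT [BaT]: the number of the colourings without edges, modulo four (MP_854819)
-/

set_option autoImplicit false

namespace Pool.Agent.ECT

open Pool.Agent.ECH Pool.Agent.ECM

/-- the functions which are `d` outside of `S`, nonzero and commuting with `k` (where `q = 1`) on
`S`, with the sum `s` of `q z * v z` -/
def BaT_F {W : Type} [Fintype W] [DecidableEq W] (q : W → ZMod 2) (k : K) (d : W → K)
    (S : Finset W) (s : K) : Finset (W → K) :=
  Finset.univ.filter fun v : W → K => (∀ z, z ∉ S → v z = d z) ∧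
    (∀ z ∈ S, v z ≠ 0 ∧ q z * om (v z) k = 0) ∧
    (∑ z ∈ S, ((q z * (v z).1, q z * (v z).2) : K)) = s

theorem BaT_empty {W : Type} [Fintype W] [DecidableEq W] (q : W → ZMod 2) (k : K) (d : W → K)
    (s : K) : (BaT_F q k d ∅ s).card = if s = 0 then 1 else 0 := by
  unfold BaT_F
  by_cases hs : s = 0
  · rw [if_pos hs, Finset.card_eq_one]
    refine ⟨d, ?_⟩
    ext v
    simp only [Finset.mem_filter, Finset.mem_univ, true_and, Finset.mem_singleton,
      Finset.notMem_empty, not_false_eq_true, forall_true_left, Finset.sum_empty]
    constructor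
    · rintro ⟨h, _⟩
      exact funext h
    · rintro rfl
      exact ⟨fun _ => rfl, fun z hz => absurd hz (by simp), hs.symm⟩
  · rw [if_neg hs, Finset.card_eq_zero, Finset.filter_eq_empty_iff]
    rintro v _ ⟨_, _, h⟩
    rw [Finset.sum_empty] at h
    exact hs h.symm

theorem BaT_step {W : Type} [Fintype W] [DecidableEq W] (q : W → ZMod 2) (k : K) (d : W → K)
    (S : Finset W) (a : W) (ha : a ∉ S) (s : K) :
    (BaT_F q k d (insert a S) s).card =
      ∑ c ∈ Finset.univ.filter (fun c : K => c ≠ 0 ∧ q a * om c k = 0),
        (BaT_F q k d S (s - (q a * c.1, q a * c.2))).card := by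
  rw [Finset.card_eq_sum_card_fiberwise (f := fun v : W → K => v a)
    (t := Finset.univ.filter (fun c : K => c ≠ 0 ∧ q a * om c k = 0))]
  · apply Finset.sum_congr rfl
    intro c hc
    simp only [Finset.mem_filter, Finset.mem_univ, true_and] at hc
    have key : ∀ (v : W → K) (e : K), (∑ z ∈ S, ((q z * (Function.update v a e z).1,
        q z * (Function.update v a e z).2) : K)) = ∑ z ∈ S, ((q z * (v z).1, q z * (v z).2) : K) := by
      intro v e
      apply Finset.sum_congr rfl
      intro z hz
      have : z ≠ a := fun h => ha (h ▸ hz)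
      rw [Function.update_of_ne this]
    refine Finset.card_bij' (fun v _ => Function.update v a (d a))
      (fun v _ => Function.update v a c) ?_ ?_ ?_ ?_
    · intro v hv
      simp only [BaT_F, Finset.mem_filter, Finset.mem_univ, true_and] at hv ⊢
      obtain ⟨⟨h1, h2, h3⟩, h4⟩ := hv
      refine ⟨?_, ?_, ?_⟩
      · intro z hz
        by_cases hza : z = a
        · subst hza
          rw [Function.update_self]
        · rw [Function.update_of_ne hza]
          exact h1 z (by simp [hza, hz])
      · intro z hz
        have hza : z ≠ a := fun h => ha (h ▸ hz)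
        rw [Function.update_of_ne hza]
        exact h2 z (Finset.mem_insert_of_mem hz)
      · rw [key, ← h3, Finset.sum_insert ha, h4]
        abel
    · intro v hv
      simp only [BaT_F, Finset.mem_filter, Finset.mem_univ, true_and] at hv ⊢
      obtain ⟨h1, h2, h3⟩ := hv
      refine ⟨⟨?_, ?_, ?_⟩, ?_⟩
      · intro z hz
        rw [Finset.mem_insert, not_or] at hz
        rw [Function.update_of_ne hz.1]
        exact h1 z hz.2
      · intro z hz
        by_cases hza : z = a
        · subst hza
          rw [Function.update_self]
          exact hc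
        · rw [Function.update_of_ne hza]
          exact h2 z ((Finset.mem_insert.1 hz).resolve_left hza)
      · rw [Finset.sum_insert ha, key, h3, Function.update_self]
        abel
      · rw [Function.update_self]
    · intro v hv
      simp only [BaT_F, Finset.mem_filter, Finset.mem_univ, true_and] at hv
      rw [Function.update_idem]
      rw [← hv.2, Function.update_eq_self]
    · intro v hv
      simp only [BaT_F, Finset.mem_filter, Finset.mem_univ, true_and] at hv
      rw [Function.update_idem]
      rw [← hv.1 a ha, Function.update_eq_self]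
  · intro v hv
    simp only [BaT_F, Finset.coe_filter, Finset.mem_univ, true_and, Set.mem_ofPred_eq] at hv ⊢
    exact hv.2.1 a (Finset.mem_insert_self _ _)

/-- the case `k = 0` -/
theorem BaT_zero {W : Type} [Fintype W] [DecidableEq W] (q : W → ZMod 2) (d : W → K)
    (S : Finset W) : ∀ s : K, ((BaT_F q 0 d S s).card : ZMod 4) =
      (-1) ^ S.card * ((if s = 0 then 1 else 0) - ((S.filter fun z => q z = 1).card : ZMod 4)) := by
  induction S using Finset.induction_on with
  | empty =>
    intro s
    rw [BaT_empty]
    by_cases hs : s = 0 <;> simp [hs]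
  | insert a S ha ih =>
    intro s
    rw [BaT_step q 0 d S a ha s, Nat.cast_sum, Finset.card_insert_of_notMem ha, pow_succ]
    have h0 : ∀ c : K, om c 0 = 0 := by
      intro c; simp [om]
    simp only [h0, mul_zero, and_true, ih]
    rcases (by decide : ∀ x : ZMod 2, x = 0 ∨ x = 1) (q a) with hq | hq
    · have hf : (insert a S).filter (fun z => q z = 1) = S.filter (fun z => q z = 1) := by
        rw [Finset.filter_insert, if_neg (by rw [hq]; decide)]
      rw [hf, hq]
      simp only [zero_mul]
      rw [show ((0, 0) : K) = 0 from rfl]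
      simp only [sub_zero]
      rw [Finset.sum_const, show (Finset.univ.filter fun c : K => c ≠ 0).card = 3 by decide]
      rw [nsmul_eq_mul]
      have : ((3 : ℕ) : ZMod 4) = -1 := by decide
      rw [this]; ring
    · have hf : ((insert a S).filter (fun z => q z = 1)).card =
          (S.filter (fun z => q z = 1)).card + 1 := by
        rw [Finset.filter_insert, if_pos hq, Finset.card_insert_of_notMem (by simp [ha])]
      rw [hf, hq]
      simp only [one_mul, Prod.mk.eta]
      rw [← Finset.mul_sum, Nat.cast_add, Nat.cast_one]
      have h1 : ∀ (w : ZMod 4) (s : K), (∑ c ∈ Finset.univ.filter (fun c : K => c ≠ 0),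
          ((if s - c = 0 then (1 : ZMod 4) else 0) - w)) = -((if s = 0 then 1 else 0) - (w + 1)) := by
        decide
      rw [h1]; ring

/-- the case `k ≠ 0` -/
theorem BaT_ne {W : Type} [Fintype W] [DecidableEq W] (q : W → ZMod 2) (k : K) (hk : k ≠ 0)
    (d : W → K) (S : Finset W) : ∀ s : K, ((BaT_F q k d S s).card : ZMod 4) =
      (-1) ^ (S.card + (S.filter fun z => q z = 1).card) *
        (if s = (S.filter fun z => q z = 1).card • k then 1 else 0) := by
  induction S using Finset.induction_on with
  | empty =>
    intro s
    rw [BaT_empty]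
    by_cases hs : s = 0 <;> simp [hs]
  | insert a S ha ih =>
    intro s
    rw [BaT_step q k d S a ha s, Nat.cast_sum, Finset.card_insert_of_notMem ha]
    simp only [ih]
    rcases (by decide : ∀ x : ZMod 2, x = 0 ∨ x = 1) (q a) with hq | hq
    · have hf : (insert a S).filter (fun z => q z = 1) = S.filter (fun z => q z = 1) := by
        rw [Finset.filter_insert, if_neg (by rw [hq]; decide)]
      rw [hf, hq]
      simp only [zero_mul]
      rw [show ((0, 0) : K) = 0 from rfl]
      simp only [sub_zero, and_true]
      rw [Finset.sum_const, show (Finset.univ.filter fun c : K => c ≠ 0).card = 3 by decide]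
      rw [nsmul_eq_mul]
      have : ((3 : ℕ) : ZMod 4) = -1 := by decide
      rw [this, Nat.add_right_comm, pow_succ]; ring
    · have hf : ((insert a S).filter (fun z => q z = 1)).card =
          (S.filter (fun z => q z = 1)).card + 1 := by
        rw [Finset.filter_insert, if_pos hq, Finset.card_insert_of_notMem (by simp [ha])]
      rw [hf, hq]
      simp only [one_mul, Prod.mk.eta]
      have hd : ∀ k : K, k ≠ 0 →
          Finset.univ.filter (fun c : K => c ≠ 0 ∧ om c k = 0) = {k} := by decide
      have h1 := hd k hk
      rw [h1, Finset.sum_singleton]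
      have h2 : ∀ m : ℕ, (s - k = m • k) ↔ (s = (m + 1) • k) := by
        intro m
        rw [succ_nsmul, sub_eq_iff_eq_add]
      simp only [h2]
      congr 1
      have h4 : ∀ x : ℕ, (-1 : ZMod 4) ^ (x + 2) = (-1) ^ x := by
        intro x; rw [pow_add]; norm_num
      rw [show S.card + 1 + ((S.filter fun z => q z = 1).card + 1) =
        S.card + (S.filter fun z => q z = 1).card + 2 by ring, h4]

theorem thm_BaT : St_BaT := by
  intro W _ _ Q hQ t D htD hev hQ0
  set S : Finset W := (insert t D)ᶜ with hS
  have hcn : cn Q t D = (S.filter fun z => Q t z = 1).card := by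
    unfold cn
    congr 1
    ext x
    simp only [Finset.mem_filter, Finset.mem_univ, true_and, hS, Finset.mem_compl,
      Finset.mem_insert, not_or]
    constructor
    · rintro ⟨h1, h2⟩
      refine ⟨⟨?_, h1⟩, h2⟩
      rintro rfl
      rw [hQ.diag] at h2
      exact absurd h2 (by decide)
    · rintro ⟨⟨_, h1⟩, h2⟩
      exact ⟨h1, h2⟩
  have hmm : MM Q t D (fun _ => 0) = ∑ k : K, (BaT_F (fun z => Q t z) k
      (fun z => if z = t then k else 0) S 0).card := by
    unfold MM
    rw [Finset.card_eq_sum_card_fiberwise (f := fun v : W → K => v t) (t := Finset.univ)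
      (by intro v _; simp)]
    apply Finset.sum_congr rfl
    intro k _
    congr 1
    ext v
    simp only [BaT_F, Finset.mem_filter, Finset.mem_univ, true_and]
    -- the values of `L`
    have hL : (∀ z ∈ D, v z = 0) → ∀ x, x ∉ insert t D →
        L Q v x = (Q t x * (v t).1, Q t x * (v t).2) := by
      intro hD x hx
      unfold L
      have e1 : ∑ y, Q x y * (v y).1 = Q t x * (v t).1 := by
        rw [Finset.sum_eq_single t]
        · rw [hQ.symm]
        · intro y _ hy
          by_cases hyD : y ∈ D
          · rw [hD y hyD]; simp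
          · rw [hQ0 x y hx (by simp [hy, hyD])]; simp
        · intro h; exact absurd (Finset.mem_univ t) h
      have e2 : ∑ y, Q x y * (v y).2 = Q t x * (v t).2 := by
        rw [Finset.sum_eq_single t]
        · rw [hQ.symm]
        · intro y _ hy
          by_cases hyD : y ∈ D
          · rw [hD y hyD]; simp
          · rw [hQ0 x y hx (by simp [hy, hyD])]; simp
        · intro h; exact absurd (Finset.mem_univ t) h
      rw [e1, e2]
    have hLt : (∀ z ∈ D, v z = 0) →
        L Q v t = ∑ z ∈ S, ((Q t z * (v z).1, Q t z * (v z).2) : K) := by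
      intro hD
      have hz : ∀ y, y ∉ S → y = t ∨ y ∈ D := by
        intro y hy
        simp only [hS, Finset.mem_compl, not_not, Finset.mem_insert] at hy
        exact hy
      unfold L
      rw [Prod.ext_iff]
      constructor
      · rw [Prod.fst_sum]
        symm
        apply Finset.sum_subset (Finset.subset_univ S)
        intro y _ hy
        rcases hz y hy with rfl | hyD
        · simp [hQ.diag]
        · simp [hD y hyD]
      · rw [Prod.snd_sum]
        symm
        apply Finset.sum_subset (Finset.subset_univ S)
        intro y _ hy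
        rcases hz y hy with rfl | hyD
        · simp [hQ.diag]
        · simp [hD y hyD]
    have hom : ∀ (x k : K) (e : ZMod 2), om x ((e * k.1, e * k.2) : K) = e * om x k := by
      decide
    constructor
    · rintro ⟨⟨h1, h2, h3⟩, h4⟩
      refine ⟨?_, ?_, ?_⟩
      · intro z hz
        simp only [hS, Finset.mem_compl, not_not, Finset.mem_insert] at hz
        by_cases hzt : z = t
        · rw [if_pos hzt, hzt, h4]
        · rw [if_neg hzt]
          exact h1 z (hz.resolve_left hzt)
      · intro z hz
        simp only [hS, Finset.mem_compl] at hz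
        have hz' := hz
        rw [Finset.mem_insert, not_or] at hz
        have h5 := h3 z hz.2 hz.1
        refine ⟨h5.1, ?_⟩
        have h6 := h5.2
        rw [hL h1 z hz', hom, h4] at h6
        exact h6
      · rw [← hLt h1]; exact h2
    · rintro ⟨h1, h2, h3⟩
      have ht : v t = k := by
        have := h1 t (by simp [hS])
        rwa [if_pos rfl] at this
      have hD : ∀ z ∈ D, v z = 0 := by
        intro z hz
        have hzt : z ≠ t := fun h => htD (h ▸ hz)
        have := h1 z (by simp [hS, hz])
        rwa [if_neg hzt] at this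
      refine ⟨⟨hD, ?_, ?_⟩, ht⟩
      · rw [hLt hD]; exact h3
      · intro z hz hzt
        have hzS : z ∉ insert t D := by simp [hz, hzt]
        have h5 := h2 z (by rw [hS, Finset.mem_compl]; exact hzS)
        refine ⟨h5.1, ?_⟩
        rw [hL hD z hzS, hom, ht]
        exact h5.2
  rw [hmm, hcn, Nat.cast_sum]
  have hu : (Finset.univ : Finset K) = {0, k0, k1, k2} := by decide
  rw [hu, Finset.sum_insert (by decide), Finset.sum_insert (by decide),
    Finset.sum_insert (by decide), Finset.sum_singleton, BaT_zero, BaT_ne _ k0 (by decide),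
    BaT_ne _ k1 (by decide), BaT_ne _ k2 (by decide)]
  generalize (S.filter fun z => Q t z = 1).card = u
  obtain ⟨m, hm⟩ := hev
  rw [hm]
  have e0 : ((-1 : ZMod 4)) ^ (m + m) = 1 := by
    rw [← two_mul, pow_mul]; norm_num
  rw [if_pos rfl, pow_add _ (m + m) u, e0]
  rcases Nat.even_or_odd' u with ⟨j, hj | hj⟩
  · have h3 : ∀ k : K, (0 : K) = u • k := by
      intro k
      rw [hj, mul_nsmul]
      have : ∀ k : K, (2 : ℕ) • k = 0 := by decide
      rw [this, nsmul_zero]
    rw [if_pos (h3 k0), if_pos (h3 k1), if_pos (h3 k2)]
    have h4 : u / 2 = j := by omega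
    rw [h4, hj, pow_mul]
    push_cast
    have : ∀ j : ZMod 4, 1 * (1 - 2 * j) + (1 * ((-1) ^ 2) ^ 0 * 1 + (1 * ((-1) ^ 2) ^ 0 * 1 +
      1 * ((-1) ^ 2) ^ 0 * 1)) = 2 * j := by decide
    have h5 : ((-1 : ZMod 4) ^ 2) ^ j = ((-1) ^ 2) ^ 0 := by norm_num
    rw [h5]
    exact this j
  · have h3 : ∀ k : K, k ≠ 0 → ¬ (0 : K) = u • k := by
      intro k hk
      rw [hj, add_nsmul, mul_nsmul]
      have : ∀ k : K, (2 : ℕ) • k = 0 := by decide
      rw [this, nsmul_zero, zero_add, one_nsmul]
      exact fun h => hk h.symm
    rw [if_neg (h3 k0 (by decide)), if_neg (h3 k1 (by decide)), if_neg (h3 k2 (by decide))]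
    have h4 : u / 2 = j := by omega
    rw [h4, hj]
    push_cast
    have : ∀ j : ZMod 4, 1 * (1 - (2 * j + 1)) = 2 * j := by decide
    simp only [mul_zero, add_zero]
    exact this j

end Pool.Agent.ECT
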