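import Pool.Agent.ECT.St

/-!
# ECT, module CtT: double counting
-/

set_option autoImplicit false

namespace Pool.Agent.ECT

open Pool.Agent.ECH Pool.Agent.ECM

private theorem CtT_ne {V : Type} [Fintype V] [DecidableEq V] {r : V → ℕ} {t : V × V × V}
    (ht : t ∈ TT r) : t.2.1 ≠ t.1 ∧ t.2.2 ≠ t.1 ∧ t.2.2 ≠ t.2.1 := by
  unfold TT at ht
  obtain ⟨-, h1, h2, h3⟩ := Finset.mem_filter.1 ht
  refine ⟨fun h => ?_, h2, h3⟩
  rw [h] at h1
  exact lt_irrefl _ h1

private theorem CtT_Td {V : Type} [DecidableEq V] {t : V × V × V} (h1 : t.2.1 ≠ t.1)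
    (h2 : t.2.2 ≠ t.1) (h3 : t.2.2 ≠ t.2.1) (v : V → K) :
    (∀ z ∈ Ts t, v z = Td t z) ↔ (v t.1 = k0 ∧ v t.2.1 = k1 ∧ v t.2.2 = k2) := by
  have e1 : Td t t.1 = k0 := if_pos rfl
  have e2 : Td t t.2.1 = k1 := by
    unfold Td
    rw [if_neg h1, if_pos rfl]
  have e3 : Td t t.2.2 = k2 := by
    unfold Td
    rw [if_neg h2, if_neg h3, if_pos rfl]
  constructor
  · intro h
    refine ⟨?_, ?_, ?_⟩
    · rw [← e1]
      exact h _ (by simp [Ts])
    · rw [← e2]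
      exact h _ (by simp [Ts])
    · rw [← e3]
      exact h _ (by simp [Ts])
  · rintro ⟨g1, g2, g3⟩ z hz
    simp only [Ts, Finset.mem_insert, Finset.mem_singleton] at hz
    rcases hz with rfl | rfl | rfl
    · rw [e1, g1]
    · rw [e2, g2]
    · rw [e3, g3]

private theorem CtT_k : k0 ≠ 0 ∧ k1 ≠ 0 ∧ k2 ≠ 0 := by decide

private theorem CtT_sum {V : Type} [Fintype V] [DecidableEq V] (r : V → ℕ) (t : V)
    (S : Finset (V → K)) : ∑ v ∈ S, hh r t v = ∑ u ∈ TU r t,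
      (S.filter fun v => v u.1 = k0 ∧ v u.2.1 = k1 ∧ v u.2.2 = k2).card := by
  have h1 : ∀ v : V → K, hh r t v = ∑ u ∈ TU r t,
      if v u.1 = k0 ∧ v u.2.1 = k1 ∧ v u.2.2 = k2 then 1 else 0 := by
    intro v
    unfold hh
    rw [Finset.card_filter]
  rw [Finset.sum_congr rfl fun v _ => h1 v, Finset.sum_comm]
  refine Finset.sum_congr rfl fun u _ => ?_
  rw [Finset.card_filter]

private theorem CtT_nz {V : Type} [DecidableEq V] {t : V × V × V} {v : V → K}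
    (g : v t.1 = k0 ∧ v t.2.1 = k1 ∧ v t.2.2 = k2) {z : V} (hz : z ∈ Ts t) : v z ≠ 0 := by
  obtain ⟨g1, g2, g3⟩ := g
  obtain ⟨n0, n1, n2⟩ := CtT_k
  simp only [Ts, Finset.mem_insert, Finset.mem_singleton] at hz
  rcases hz with rfl | rfl | rfl
  · rw [g1]
    exact n0
  · rw [g2]
    exact n1
  · rw [g3]
    exact n2

theorem thm_CtT (h : St_AuT) : St_CtT := by
  intro W _ _ Q t hQ r
  refine ⟨?_, fun x hxt => ?_⟩
  · rw [CtT_sum]
    refine Finset.sum_congr rfl fun u hu => ?_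
    have hu' : u ∈ TT r ∧ t ∉ Ts u := by
      unfold TU at hu
      exact Finset.mem_filter.1 hu
    obtain ⟨d1, d2, d3⟩ := CtT_ne hu'.1
    unfold MM
    congr 1
    ext v
    simp only [Finset.mem_filter, Finset.mem_univ, true_and]
    rw [CtT_Td d1 d2 d3 v]
    constructor
    · rintro ⟨⟨g0, g1⟩, g2⟩
      exact ⟨g2, g0, fun z _ hz => g1 z hz⟩
    · rintro ⟨g1, g0, g2⟩
      refine ⟨⟨g0, ?_⟩, g1⟩
      refine (h W Q t hQ v u hu'.2 g1.1 g1.2.1 g1.2.2 g0).1 (fun z hzt => ?_)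
        fun z hz hzt => (g2 z hz hzt).2
      by_cases hz : z ∈ Ts u
      · exact CtT_nz g1 hz
      · exact (g2 z hz hzt).1
  · rw [CtT_sum, Finset.sum_filter]
    refine Finset.sum_congr rfl fun u hu => ?_
    have hu' : u ∈ TT r ∧ t ∉ Ts u := by
      unfold TU at hu
      exact Finset.mem_filter.1 hu
    obtain ⟨d1, d2, d3⟩ := CtT_ne hu'.1
    by_cases hx : x ∈ Ts u
    · rw [if_neg (not_not.2 hx), Finset.card_eq_zero, Finset.filter_eq_empty_iff]
      intro v hv g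
      rw [Finset.mem_filter] at hv
      exact CtT_nz g hx hv.2.2.1
    · rw [if_pos hx]
      unfold MX
      congr 1
      ext v
      simp only [Finset.mem_filter, Finset.mem_univ, true_and]
      rw [CtT_Td d1 d2 d3 v]
      constructor
      · rintro ⟨⟨g0, g1, g2, g3⟩, g4⟩
        exact ⟨g4, g0, g1, g2, fun z _ hz hzx => g3 z hz hzx⟩
      · rintro ⟨g1, g0, g2, g3, g4⟩
        refine ⟨⟨g0, g2, g3, ?_⟩, g1⟩
        refine (h W Q t hQ v u hu'.2 g1.1 g1.2.1 g1.2.2 g0).2 x hxt g2 g3 (fun z hzt hzx => ?_)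
          fun z hz hzt hzx => (g4 z hz hzt hzx).2
        by_cases hzu : z ∈ Ts u
        · exact CtT_nz g1 hzu
        · exact (g4 z hzu hzt hzx).1

end Pool.Agent.ECT
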