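import Pool.Agent.ECM.Defs

/-!
# ECT: even circuit decompositions of 4-regular graphs with a Hamiltonian cycle whose complement is
two cycles (MP_854819)

The graph `Q` has a special vertex `t`. Colourings `v` are good at the vertices `x ≠ t` as in ECM; the
value `v t` is arbitrary, and `(Q v) t = 0`.
-/

set_option autoImplicit false

namespace Pool.Agent.ECT

open Pool.Agent.ECH Pool.Agent.ECM

/-- the number of the `v` with `v = d` on `D`, `(Q v) t = 0`, which are good outside of `D` and `t` -/
def MM {W : Type} [Fintype W] [DecidableEq W] (Q : W → W → ZMod 2) (t : W) (D : Finset W)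
    (d : W → K) : ℕ :=
  (Finset.univ.filter fun v : W → K => (∀ z ∈ D, v z = d z) ∧ L Q v t = 0 ∧
    ∀ z, z ∉ D → z ≠ t → Gd Q v z).card

/-- the number of the `v` with `v = d` on `D`, `(Q v) t = 0`, `v x = 0`, `(Q v) x = 0`, which are good
outside of `D`, `t` and `x` -/
def MX {W : Type} [Fintype W] [DecidableEq W] (Q : W → W → ZMod 2) (t : W) (D : Finset W)
    (d : W → K) (x : W) : ℕ :=
  (Finset.univ.filter fun v : W → K => (∀ z ∈ D, v z = d z) ∧ L Q v t = 0 ∧ v x = 0 ∧
    L Q v x = 0 ∧ ∀ z, z ∉ D → z ≠ t → z ≠ x → Gd Q v z).card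

/-- the number of the neighbours of `t` outside of `D` -/
def cn {W : Type} [Fintype W] [DecidableEq W] (Q : W → W → ZMod 2) (t : W) (D : Finset W) : ℕ :=
  (Finset.univ.filter fun x : W => x ∉ D ∧ Q t x = 1).card

/-- `Q` without `t` has even degrees, and the degree of `t` is even -/
structure EvT {W : Type} [Fintype W] (Q : W → W → ZMod 2) (t : W) : Prop where
  diag : ∀ x, Q x x = 0
  symm : ∀ x y, Q x y = Q y x
  deg : ∀ x, x ≠ t → ∑ y, Q x y = Q x t
  degt : ∑ y, Q t y = 0

/-- the triples of `TT r` without `t` -/
def TU {W : Type} [Fintype W] [DecidableEq W] (r : W → ℕ) (t : W) : Finset (W × W × W) :=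
  (TT r).filter fun u => t ∉ Ts u

/-- the number of the triples of `TU r t` with the colours `k0`, `k1`, `k2` -/
def hh {W : Type} [Fintype W] [DecidableEq W] (r : W → ℕ) (t : W) (v : W → K) : ℕ :=
  ((TU r t).filter fun u => v u.1 = k0 ∧ v u.2.1 = k1 ∧ v u.2.2 = k2).card

/-- the number of the vertices `x ≠ t` with the colour `k` -/
def Nr {W : Type} [Fintype W] [DecidableEq W] (t : W) (v : W → K) (k : K) : ℕ :=
  (Finset.univ.filter fun x => x ≠ t ∧ v x = k).card

/-- `β` has two cycles, the classes of `s`; `b x` is the position of `x` in its cycle -/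
structure Cy2 {V : Type} [Fintype V] (β : Equiv.Perm V) (b : V → ℕ) (s : V → Bool) : Prop where
  inj : ∀ x y, s x = s y → b x = b y → x = y
  lt : ∀ x, b x < (Finset.univ.filter fun y => s y = s x).card
  cls : ∀ x, s (β x) = s x
  step : ∀ x, b (β x) = (b x + 1) % (Finset.univ.filter fun y => s y = s x).card

/-- The graph of a cyclic order `a` and of two cyclic orders `b` on the classes of `s`; `none` is the
special vertex. -/
def Q2 {V : Type} [DecidableEq V] (a b : V → ℕ) (s : V → Bool) : Option V → Option V → ZMod 2
  | none, none => 0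
  | none, some y => if s y = true then 1 else 0
  | some x, none => if s x = true then 1 else 0
  | some x, some y =>
    if x = y then 0 else
      if s x = false ∧ s y = false then
        (if a y < a x then 1 else 0) + (if b y < b x then 1 else 0) +
          ((a x : ZMod 2) + (b x : ZMod 2)) + ((a y : ZMod 2) + (b y : ZMod 2))
      else if s x = false ∧ s y = true then
        (if a x < a y then 1 else 0) + ((a y : ZMod 2) + (b y : ZMod 2))
      else if s x = true ∧ s y = false then
        (if a y < a x then 1 else 0) + ((a x : ZMod 2) + (b x : ZMod 2))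
      else (if a y < a x then 1 else 0) + (if b y < b x then 1 else 0)

end Pool.Agent.ECT
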