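import Pool.Agent.ECT.St

/-! # ECT: [FnT] the theorem (MP_854819_co) -/

set_option autoImplicit false

namespace Pool.Agent.ECT

open Finset SimpleGraph Pool.Agent.ECH Pool.Agent.ECM Pool.Agent.CEC

private lemma FnT_cyc {V : Type} [Fintype V] {α : Equiv.Perm V} {a : V → ℕ} (h : Cyc α a)
    (hn : 3 ≤ Fintype.card V) (x : V) : α x ≠ x ∧ α (α x) ≠ x := by
  have h0 := h.lt x
  have h1 := h.step x
  have h2 := h.step (α x)
  have h3 := h.lt (α x)
  constructor
  · intro hx
    rw [hx] at h1
    rcases Nat.lt_or_ge (a x + 1) (Fintype.card V) with hl | hl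
    · rw [Nat.mod_eq_of_lt hl] at h1
      omega
    · have he : a x + 1 = Fintype.card V := by omega
      rw [he, Nat.mod_self] at h1
      omega
  · intro hx
    rw [hx] at h2
    rcases Nat.lt_or_ge (a x + 1) (Fintype.card V) with hl | hl
    · rw [Nat.mod_eq_of_lt hl] at h1
      rcases Nat.lt_or_ge (a (α x) + 1) (Fintype.card V) with hl2 | hl2
      · rw [Nat.mod_eq_of_lt hl2] at h2
        omega
      · have he : a (α x) + 1 = Fintype.card V := by omega
        rw [he, Nat.mod_self] at h2
        omega
    · have he : a x + 1 = Fintype.card V := by omega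
      rw [he, Nat.mod_self] at h1
      rcases Nat.lt_or_ge (a (α x) + 1) (Fintype.card V) with hl2 | hl2
      · rw [Nat.mod_eq_of_lt hl2] at h2
        omega
      · omega

private lemma FnT_cy2 {V : Type} [Fintype V] {β : Equiv.Perm V} {b : V → ℕ} {s : V → Bool}
    (h : Cy2 β b s) (x : V) (hn : 3 ≤ (Finset.univ.filter fun y => s y = s x).card) :
    β x ≠ x ∧ β (β x) ≠ x := by
  have h0 := h.lt x
  have h1 := h.step x
  have h2 := h.step (β x)
  have h3 := h.lt (β x)
  rw [h.cls x] at h2 h3
  generalize (Finset.univ.filter fun y => s y = s x).card = m at h0 h1 h2 h3 hn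
  constructor
  · intro hx
    rw [hx] at h1
    rcases Nat.lt_or_ge (b x + 1) m with hl | hl
    · rw [Nat.mod_eq_of_lt hl] at h1
      omega
    · have he : b x + 1 = m := by omega
      rw [he, Nat.mod_self] at h1
      omega
  · intro hx
    rw [hx] at h2
    rcases Nat.lt_or_ge (b x + 1) m with hl | hl
    · rw [Nat.mod_eq_of_lt hl] at h1
      rcases Nat.lt_or_ge (b (β x) + 1) m with hl2 | hl2
      · rw [Nat.mod_eq_of_lt hl2] at h2
        omega
      · have he : b (β x) + 1 = m := by omega
        rw [he, Nat.mod_self] at h2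
        omega
    · have he : b x + 1 = m := by omega
      rw [he, Nat.mod_self] at h1
      rcases Nat.lt_or_ge (b (β x) + 1) m with hl2 | hl2
      · rw [Nat.mod_eq_of_lt hl2] at h2
        omega
      · omega

private lemma FnT_fst : ∀ p : K, p.1 = (if p = k1 then 1 else 0) + (if p = k2 then 1 else 0) := by
  decide

private lemma FnT_snd : ∀ p : K, p.2 = (if p = k0 then 1 else 0) + (if p = k2 then 1 else 0) := by
  decide

private lemma FnT_nr {V : Type} [Fintype V] [DecidableEq V] (v : Option V → K) (k : K) :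
    (Nr none v k : ZMod 2) = ∑ x : V, if v (some x) = k then 1 else 0 := by
  unfold Nr
  rw [← Finset.sum_boole, Fintype.sum_option]
  rw [if_neg (fun h => h.1 rfl), zero_add]
  refine Finset.sum_congr rfl fun x _ => ?_
  exact if_congr (and_iff_right (Option.some_ne_none x)) rfl rfl

private lemma FnT_sum {V : Type} [Fintype V] [DecidableEq V] (v : Option V → K)
    (h0 : Odd (Nr none v k0)) (h1 : Odd (Nr none v k1)) (h2 : Odd (Nr none v k2)) :
    ∑ x : V, v (some x) = 0 := by
  have e0 := FnT_nr v k0
  have e1 := FnT_nr v k1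
  have e2 := FnT_nr v k2
  rw [ZMod.natCast_eq_one_iff_odd.2 h0] at e0
  rw [ZMod.natCast_eq_one_iff_odd.2 h1] at e1
  rw [ZMod.natCast_eq_one_iff_odd.2 h2] at e2
  apply Prod.ext
  · rw [Prod.fst_sum, Finset.sum_congr rfl fun x _ => FnT_fst (v (some x)),
      Finset.sum_add_distrib, ← e1, ← e2]
    decide
  · rw [Prod.snd_sum, Finset.sum_congr rfl fun x _ => FnT_snd (v (some x)),
      Finset.sum_add_distrib, ← e0, ← e2]
    decide

private lemma FnT_true {V : Type} [Fintype V] [DecidableEq V] (a b : V → ℕ) (s : V → Bool)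
    (v : Option V → K) (h : L (Q2 a b s) v none = 0) :
    (∑ x : V, if s x = true then v (some x) else 0) = 0 := by
  have h1 : ∀ g : K → ZMod 2, ∑ y : Option V, Q2 a b s none y * g (v y) =
      ∑ x : V, if s x = true then g (v (some x)) else 0 := by
    intro g
    rw [Fintype.sum_option]
    have h2 : Q2 a b s none none = 0 := rfl
    rw [h2, zero_mul, zero_add]
    refine Finset.sum_congr rfl fun x _ => ?_
    have h3 : Q2 a b s none (some x) = if s x = true then 1 else 0 := rfl
    rw [h3]
    by_cases hs : s x = true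
    · rw [if_pos hs, if_pos hs, one_mul]
    · rw [if_neg hs, if_neg hs, zero_mul]
  have h2 := congrArg Prod.fst h
  have h3 := congrArg Prod.snd h
  change ∑ y : Option V, Q2 a b s none y * (v y).1 = 0 at h2
  change ∑ y : Option V, Q2 a b s none y * (v y).2 = 0 at h3
  rw [h1 Prod.fst] at h2
  rw [h1 Prod.snd] at h3
  apply Prod.ext
  · rw [Prod.fst_sum]
    refine Eq.trans (Finset.sum_congr rfl fun x _ => ?_) h2
    by_cases hs : s x = true
    · rw [if_pos hs, if_pos hs]
    · rw [if_neg hs, if_neg hs]
      rfl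
  · rw [Prod.snd_sum]
    refine Eq.trans (Finset.sum_congr rfl fun x _ => ?_) h3
    by_cases hs : s x = true
    · rw [if_pos hs, if_pos hs]
    · rw [if_neg hs, if_neg hs]
      rfl

private lemma FnT_cn {V : Type} [Fintype V] [DecidableEq V] (a b : V → ℕ) (s : V → Bool) :
    cn (Q2 a b s) none ∅ = (univ.filter fun x => s x = true).card := by
  unfold cn
  symm
  refine Finset.card_bij (fun x _ => some x) ?_ ?_ ?_
  · intro x hx
    rw [Finset.mem_filter] at hx ⊢
    refine ⟨Finset.mem_univ _, Finset.notMem_empty _, ?_⟩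
    have h3 : Q2 a b s none (some x) = if s x = true then 1 else 0 := rfl
    rw [h3, if_pos hx.2]
  · intro x _ y _ h
    exact Option.some_injective _ h
  · intro y hy
    rw [Finset.mem_filter] at hy
    obtain ⟨-, -, hy⟩ := hy
    cases y with
    | none =>
      have h2 : Q2 a b s none none = 0 := rfl
      rw [h2] at hy
      exact absurd hy (by decide)
    | some x =>
      have h3 : Q2 a b s none (some x) = if s x = true then 1 else 0 := rfl
      rw [h3] at hy
      by_cases hs : s x = true
      · exact ⟨x, Finset.mem_filter.2 ⟨Finset.mem_univ _, hs⟩, rfl⟩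
      · rw [if_neg hs] at hy
        exact absurd hy (by decide)

theorem thm_FnT (hPf : St_PfT) (hQe : St_QeT) (hAs : St_AsT) (hHm : St_HmT) (hHam : St_Ham) :
    St_FnT := by
  intro V _ _ G u v w A B1 B2 hA hB1 hB2 hds hcs hdis hcov hl1 hl2
  obtain ⟨α, a, hαa, hAe⟩ := hHam V G u A hA
  obtain ⟨β, b, s, hβb, hc1, hc2, hBe⟩ := hHm V G v w B1 B2 hB1 hB2 hds hcs
  have hn : 3 ≤ Fintype.card V := by
    have h1 := hA.isCycle.three_le_length
    have h2 := hA.length_eq
    omega
  have hcl : ∀ x, 3 ≤ (Finset.univ.filter fun y => s y = s x).card := by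
    intro x
    have h1 := hB1.three_le_length
    have h2 := hB2.three_le_length
    cases hsx : s x
    · rw [hc1]
      exact h1
    · rw [hc2]
      exact h2
  have hAB : ∀ e ∈ A.edges, ¬ (e ∈ B1.edges ∨ e ∈ B2.edges) := by
    intro e he h
    rcases h with h | h
    · exact (hdis e he).1 h
    · exact (hdis e he).2 h
  have hreg : Reg4 α β := by
    refine ⟨fun x => (FnT_cyc hαa hn x).1, fun x => (FnT_cy2 hβb x (hcl x)).1,
      fun x => (FnT_cyc hαa hn x).2, fun x => (FnT_cy2 hβb x (hcl x)).2, ?_, ?_, ?_⟩
    · intro x hx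
      exact hAB s(x, α x) ((hAe x (α x)).2 (Or.inl rfl)) ((hBe x (α x)).2 (Or.inl hx))
    · intro x hx
      exact hAB s(x, β x) ((hAe x (β x)).2 (Or.inr hx.symm)) ((hBe x (β x)).2 (Or.inl rfl))
    · intro x hx
      exact hAB s(x, α x) ((hAe x (α x)).2 (Or.inl rfl)) ((hBe x (α x)).2 (Or.inr hx.symm))
  have hG : PG α β = G := by
    ext x y
    unfold PG
    rw [SimpleGraph.fromRel_adj]
    constructor
    · have hB : ∀ x y, y = β x ∨ x = β y → G.Adj x y := by
        intro x y h
        rcases (hBe x y).2 h with h | h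
        · exact B1.edges_subset_edgeSet h
        · exact B2.edges_subset_edgeSet h
      rintro ⟨-, (h | h) | (h | h)⟩
      · have := (hAe x y).2 (Or.inl h)
        exact A.edges_subset_edgeSet this
      · exact hB x y (Or.inl h)
      · have := (hAe x y).2 (Or.inr h)
        exact A.edges_subset_edgeSet this
      · exact hB x y (Or.inr h)
    · intro h
      refine ⟨h.ne, ?_⟩
      rcases hcov s(x, y) (G.mem_edgeSet.2 h) with he | he
      · rcases (hAe x y).1 he with h1 | h1
        · exact Or.inl (Or.inl h1)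
        · exact Or.inr (Or.inl h1)
      · rcases (hBe x y).1 he with h1 | h1
        · exact Or.inl (Or.inr h1)
        · exact Or.inr (Or.inr h1)
  rw [← hG]
  have hcard : Fintype.card V = B1.length + B2.length := by
    rw [← hc1, ← hc2, ← Finset.card_univ, ← Finset.card_filter_add_card_filter_not (s := univ)
      (fun x => s x = false)]
    congr 2
    ext x
    rw [Finset.mem_filter, Finset.mem_filter, Bool.not_eq_false]
  obtain ⟨j, hj⟩ : ∃ j, B2.length = 4 * j + 2 := ⟨B2.length / 4, by omega⟩
  obtain ⟨k, hk⟩ : ∃ k, Fintype.card (Option V) = 4 * k + 2 :=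
    ⟨(B1.length + B2.length) / 4, by rw [Fintype.card_option]; omega⟩
  have hodd : Odd (Finset.univ.filter fun x => s x = false).card := by
    rw [hc1, Nat.odd_iff]
    omega
  have heven : Even (Finset.univ.filter fun x => s x = true).card := by
    rw [hc2, Nat.even_iff]
    omega
  have hEv := hQe V α β a b s hαa hβb hodd heven
  obtain ⟨c, hc, hc0, o0, o1, o2⟩ := hPf (Option V) (Q2 a b s) none hEv j k hk
    (by rw [FnT_cn, hc2, hj])
  refine hAs V α β a b s hreg hαa hβb c (fun x => hc (some x) (Option.some_ne_none x)) hc0 ?_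
  have e1 := FnT_sum c o0 o1 o2
  have e2 := FnT_true a b s c hc0
  have e3 : (∑ x : V, if s x = false then c (some x) else 0) +
      (∑ x : V, if s x = true then c (some x) else 0) = ∑ x : V, c (some x) := by
    rw [← Finset.sum_add_distrib]
    refine Finset.sum_congr rfl fun x _ => ?_
    cases s x
    · rw [if_pos rfl, if_neg (by decide), add_zero]
    · rw [if_neg (by decide), if_pos rfl, zero_add]
  rw [e1, e2, add_zero] at e3
  exact e3

end Pool.Agent.ECT
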