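import Pool.Agent.ECT.St

/-! # ECT: [HmT] positions for two disjoint cycles (MP_854819_co) -/

set_option autoImplicit false

namespace Pool.Agent.ECT

open Finset SimpleGraph

/-- the abstract form -/
private theorem HmT_abs {V : Type} [Fintype V] [DecidableEq V] (s : V → Bool) (g : Bool → ℕ → V)
    (l : Bool → ℕ) (h1 : ∀ c i, s (g c i) = c)
    (h2 : ∀ c i j, i < l c → j < l c → g c i = g c j → i = j)
    (h3 : ∀ x, ∃ i, i < l (s x) ∧ g (s x) i = x) (h4 : ∀ c, g c (l c) = g c 0)
    (h5 : ∀ c, 3 ≤ l c) :
    ∃ (β : Equiv.Perm V) (b : V → ℕ), Cy2 β b s ∧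
      (∀ c, (univ.filter fun x => s x = c).card = l c) ∧
      ∀ x y, (∃ c i, i < l c ∧ s(g c i, g c (i + 1)) = s(x, y)) ↔ (y = β x ∨ x = β y) := by
  choose b hb1 hb2 using h3
  have hbg : ∀ c i, i < l c → b (g c i) = i := by
    intro c i hi
    have e1 := hb1 (g c i)
    have e2 := hb2 (g c i)
    rw [h1] at e1 e2
    exact h2 c _ _ e1 hi e2
  have hcard : ∀ c, (univ.filter fun x => s x = c).card = l c := by
    intro c
    have e1 : (univ.filter fun x => s x = c) = (Finset.range (l c)).image (g c) := by
      ext x
      rw [Finset.mem_filter, Finset.mem_image]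
      constructor
      · rintro ⟨-, rfl⟩
        exact ⟨b x, Finset.mem_range.2 (hb1 x), hb2 x⟩
      · rintro ⟨i, -, rfl⟩
        exact ⟨Finset.mem_univ _, h1 c i⟩
    rw [e1, Finset.card_image_of_injOn, Finset.card_range]
    intro i hi j hj hij
    exact h2 c i j (Finset.mem_range.1 (Finset.mem_coe.1 hi)) (Finset.mem_range.1 (Finset.mem_coe.1 hj))
      hij
  have hs : ∀ x, s (g (s x) (b x + 1)) = s x := fun x => h1 _ _
  have hbs : ∀ x, b (g (s x) (b x + 1)) = (b x + 1) % l (s x) := by
    intro x
    have e1 := hb1 x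
    rcases Nat.lt_or_ge (b x + 1) (l (s x)) with h | h
    · rw [Nat.mod_eq_of_lt h, hbg _ _ h]
    · have e2 : b x + 1 = l (s x) := by omega
      have e3 := h5 (s x)
      rw [e2, Nat.mod_self, h4, hbg _ _ (by omega)]
  have hinj : Function.Injective fun x => g (s x) (b x + 1) := by
    intro x y hxy
    have e0 : s x = s y := by
      rw [← hs x, ← hs y]
      exact congrArg s hxy
    have e1 : (b x + 1) % l (s x) = (b y + 1) % l (s y) := by
      rw [← hbs x, ← hbs y]
      exact congrArg b hxy
    rw [← e0] at e1
    have e2 := hb1 x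
    have e3 := hb1 y
    rw [← e0] at e3
    have e4 : b x = b y := by
      rcases Nat.lt_or_ge (b x + 1) (l (s x)) with h | h
      · rw [Nat.mod_eq_of_lt h] at e1
        rcases Nat.lt_or_ge (b y + 1) (l (s x)) with h' | h'
        · rw [Nat.mod_eq_of_lt h'] at e1
          omega
        · have e5 : b y + 1 = l (s x) := by omega
          rw [e5, Nat.mod_self] at e1
          omega
      · have e5 : b x + 1 = l (s x) := by omega
        rw [e5, Nat.mod_self] at e1
        rcases Nat.lt_or_ge (b y + 1) (l (s x)) with h' | h'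
        · rw [Nat.mod_eq_of_lt h'] at e1
          omega
        · omega
    rw [← hb2 x, ← hb2 y, e4, e0]
  refine ⟨Equiv.ofBijective _ (Finite.injective_iff_bijective.1 hinj), b, ⟨?_, ?_, ?_, ?_⟩, hcard,
    ?_⟩
  · intro x y hxy hb
    rw [← hb2 x, ← hb2 y, hb, hxy]
  · intro x
    rw [hcard]
    exact hb1 x
  · intro x
    exact hs x
  · intro x
    rw [hcard]
    exact hbs x
  · intro x y
    show _ ↔ (y = g (s x) (b x + 1) ∨ x = g (s y) (b y + 1))
    constructor
    · rintro ⟨c, i, hi, h⟩
      rw [Sym2.eq_iff] at h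
      rcases h with ⟨hx, hy⟩ | ⟨hx, hy⟩
      · left
        rw [← hx, ← hy, h1, hbg c i hi]
      · right
        rw [← hx, ← hy, h1, hbg c i hi]
    · rintro (h | h)
      · exact ⟨s x, b x, hb1 x, by rw [hb2 x, ← h]⟩
      · exact ⟨s y, b y, hb1 y, by rw [hb2 y, ← h, Sym2.eq_swap]⟩

private theorem HmT_inj {V : Type} {G : SimpleGraph V} {v : V} (C : G.Walk v v) (hC : C.IsCycle)
    (i j : ℕ) (hi : i < C.length) (hj : j < C.length) (h : C.getVert i = C.getVert j) : i = j := by
  exact hC.getVert_injOn' (by simp only [Set.mem_ofPred_eq]; omega)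
    (by simp only [Set.mem_ofPred_eq]; omega) h

private theorem HmT_ex {V : Type} {G : SimpleGraph V} {v : V} (C : G.Walk v v) (hC : C.IsCycle)
    (x : V) (hx : x ∈ C.support) : ∃ i, i < C.length ∧ C.getVert i = x := by
  rw [Walk.mem_support_iff_exists_getVert] at hx
  obtain ⟨n, hn, hl⟩ := hx
  have h3 := hC.three_le_length
  rcases Nat.lt_or_ge n C.length with h | h
  · exact ⟨n, h, hn⟩
  · refine ⟨0, by omega, ?_⟩
    have e : n = C.length := by omega
    rw [e, Walk.getVert_length] at hn
    rw [Walk.getVert_zero]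
    exact hn

theorem thm_HmT : St_HmT := by
  intro V _ _ G v w B1 B2 h1 h2 hds hcs
  classical
  have hs : ∀ x, decide (x ∈ B2.support) = true ↔ x ∈ B2.support := fun x => decide_eq_true_iff
  have hs' : ∀ x, decide (x ∈ B2.support) = false ↔ x ∈ B1.support := by
    intro x
    rw [decide_eq_false_iff_not]
    constructor
    · intro h
      exact (hcs x).resolve_right h
    · intro h
      exact hds x h
  obtain ⟨β, b, hCy, hcard, he⟩ := HmT_abs (fun x => decide (x ∈ B2.support))
    (fun c i => if c = true then B2.getVert i else B1.getVert i)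
    (fun c => if c = true then B2.length else B1.length)
    (by
      intro c i
      cases c
      · show decide (B1.getVert i ∈ B2.support) = false
        rw [hs']
        exact Walk.getVert_mem_support _ _
      · show decide (B2.getVert i ∈ B2.support) = true
        rw [hs]
        exact Walk.getVert_mem_support _ _)
    (by
      intro c i j hi hj hij
      cases c
      · exact HmT_inj B1 h1 i j hi hj hij
      · exact HmT_inj B2 h2 i j hi hj hij)
    (by
      intro x
      by_cases hx : x ∈ B2.support
      · have e : decide (x ∈ B2.support) = true := (hs x).2 hx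
        rw [e]
        exact HmT_ex B2 h2 x hx
      · have e : decide (x ∈ B2.support) = false := by
          rw [decide_eq_false_iff_not]
          exact hx
        rw [e]
        exact HmT_ex B1 h1 x ((hs' x).1 e))
    (by
      intro c
      cases c
      · show B1.getVert B1.length = B1.getVert 0
        rw [Walk.getVert_length, Walk.getVert_zero]
      · show B2.getVert B2.length = B2.getVert 0
        rw [Walk.getVert_length, Walk.getVert_zero])
    (by
      intro c
      cases c
      · exact h1.three_le_length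
      · exact h2.three_le_length)
  refine ⟨β, b, _, hCy, hcard false, hcard true, ?_⟩
  intro x y
  rw [← he x y, Walk.mk_mem_edges_iff_exists, Walk.mk_mem_edges_iff_exists]
  constructor
  · rintro (⟨i, hi, h⟩ | ⟨i, hi, h⟩)
    · exact ⟨false, i, hi, h⟩
    · exact ⟨true, i, hi, h⟩
  · rintro ⟨c, i, hi, h⟩
    cases c
    · exact Or.inl ⟨i, hi, h⟩
    · exact Or.inr ⟨i, hi, h⟩

end Pool.Agent.ECT
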