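import Pool.Agent.ECT.St

/-!
# ECT, module HoT (helper77): the colourings with `d = 0`, modulo two
-/

set_option autoImplicit false

namespace Pool.Agent.ECT

open Pool.Agent.ECH Pool.Agent.ECM

private theorem HoT_gd {V : Type} [Fintype V] (Q : V → V → ZMod 2) (v : V → K) (x : V)
    (h : Gd Q v x) : Gd Q (swp v) x := by
  obtain ⟨h1, h2⟩ := h
  refine ⟨fun h0 => h1 ?_, ?_⟩
  · have e1 : (v x).2 = 0 := congrArg Prod.fst h0
    have e2 : (v x).1 = 0 := congrArg Prod.snd h0
    exact Prod.ext e2 e1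
  · show om ((v x).2, (v x).1) ((L Q v x).2, (L Q v x).1) = 0
    rw [← h2]
    unfold om
    ring

private theorem HoT_card {V : Type} [Fintype V] [DecidableEq V] (S : Finset (V → K))
    (hS : ∀ v ∈ S, swp v ∈ S) :
    (S.card : ZMod 2) = ((S.filter fun v => swp v = v).card : ZMod 2) := by
  have h1 : ∑ v ∈ S.filter (fun v => ¬ swp v = v), (1 : ZMod 2) = 0 := by
    refine Finset.sum_involution (fun v _ => swp v) ?_ ?_ ?_ ?_
    · intro v _
      exact CharTwo.add_self_eq_zero 1
    · intro v hv _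
      exact (Finset.mem_filter.1 hv).2
    · intro v hv
      obtain ⟨h2, h3⟩ := Finset.mem_filter.1 hv
      exact Finset.mem_filter.2 ⟨hS v h2, fun h => h3 h.symm⟩
    · intro v _
      rfl
  have h2 := Finset.sum_filter_add_sum_filter_not S (fun v => swp v = v) (fun _ => (1 : ZMod 2))
  rw [h1, add_zero] at h2
  simpa using h2.symm

private theorem HoT_val : ∀ p : K, (p.2, p.1) = p → p = 0 ∨ p = k2 := by decide

private theorem HoT_val2 : ∀ p : K, (p.2, p.1) = p → p = (p.1, p.1) := by decide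

private theorem HoT_om : ∀ s : ZMod 2, om k2 (s, s) = 0 := by decide

/-- the colouring with the value `k2` outside of `D` and `t`, and `(c, c)` at `t` -/
private def HoT_w {W : Type} [DecidableEq W] (D : Finset W) (t : W) (c : ZMod 2) (z : W) : K :=
  if z ∈ D then 0 else if z = t then (c, c) else k2

private theorem HoT_w_D {W : Type} [DecidableEq W] {D : Finset W} (t : W) (c : ZMod 2) {z : W}
    (hz : z ∈ D) : HoT_w D t c z = 0 := if_pos hz

private theorem HoT_w_t {W : Type} [DecidableEq W] {D : Finset W} {t : W} (c : ZMod 2)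
    (ht : t ∉ D) : HoT_w D t c t = (c, c) := by
  unfold HoT_w
  rw [if_neg ht, if_pos rfl]

private theorem HoT_w_o {W : Type} [DecidableEq W] {D : Finset W} {t : W} (c : ZMod 2) {z : W}
    (hz : z ∉ D) (hzt : z ≠ t) : HoT_w D t c z = k2 := by
  unfold HoT_w
  rw [if_neg hz, if_neg hzt]

private theorem HoT_w_dg {W : Type} [DecidableEq W] (D : Finset W) (t : W) (c : ZMod 2) (z : W) :
    (HoT_w D t c z).2 = (HoT_w D t c z).1 := by
  unfold HoT_w
  split_ifs <;> rfl

private theorem HoT_w_swp {W : Type} [DecidableEq W] (D : Finset W) (t : W) (c : ZMod 2) :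
    swp (HoT_w D t c) = HoT_w D t c := by
  funext z
  exact Prod.ext (HoT_w_dg D t c z) (HoT_w_dg D t c z).symm

private theorem HoT_w_inj {W : Type} [DecidableEq W] {D : Finset W} {t : W} (ht : t ∉ D) :
    Function.Injective (HoT_w D t) := by
  intro c c' h
  have h1 := congrFun h t
  rw [HoT_w_t c ht, HoT_w_t c' ht] at h1
  exact congrArg Prod.fst h1

private theorem HoT_eq {W : Type} [DecidableEq W] {D : Finset W} {t : W} (ht : t ∉ D)
    (v : W → K) (h : swp v = v) (h0 : ∀ z ∈ D, v z = 0) (h1 : ∀ z, z ∉ D → z ≠ t → v z ≠ 0) :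
    v = HoT_w D t (v t).1 := by
  funext z
  by_cases hz : z ∈ D
  · rw [HoT_w_D t _ hz, h0 z hz]
  · by_cases hzt : z = t
    · subst hzt
      rw [HoT_w_t _ ht]
      exact HoT_val2 _ (congrFun h z)
    · rw [HoT_w_o _ hz hzt]
      exact (HoT_val _ (congrFun h z)).resolve_left (h1 z hz hzt)

private theorem HoT_L {W : Type} [Fintype W] [DecidableEq W] (Q : W → W → ZMod 2) {D : Finset W}
    {t : W} (ht : t ∉ D) (c : ZMod 2) (x : W) :
    L Q (HoT_w D t c) x = (∑ y ∈ (insert t D)ᶜ, Q x y + Q x t * c,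
      ∑ y ∈ (insert t D)ᶜ, Q x y + Q x t * c) := by
  have h1 : ∑ y, Q x y * (HoT_w D t c y).1 = ∑ y ∈ (insert t D)ᶜ, Q x y + Q x t * c := by
    rw [← Finset.sum_add_sum_compl (insert t D), Finset.sum_insert ht, HoT_w_t c ht]
    have e1 : ∑ y ∈ D, Q x y * (HoT_w D t c y).1 = 0 := by
      refine Finset.sum_eq_zero fun y hy => ?_
      rw [HoT_w_D t c hy]
      exact mul_zero _
    have e2 : ∑ y ∈ (insert t D)ᶜ, Q x y * (HoT_w D t c y).1 = ∑ y ∈ (insert t D)ᶜ, Q x y := by
      refine Finset.sum_congr rfl fun y hy => ?_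
      rw [Finset.mem_compl, Finset.mem_insert, not_or] at hy
      rw [HoT_w_o c hy.2 hy.1]
      exact mul_one _
    rw [e1, e2]
    ring
  have h2 : ∑ y, Q x y * (HoT_w D t c y).2 = ∑ y, Q x y * (HoT_w D t c y).1 :=
    Finset.sum_congr rfl fun y _ => by rw [HoT_w_dg]
  unfold L
  rw [h2, h1]

private theorem HoT_good {W : Type} [Fintype W] [DecidableEq W] (Q : W → W → ZMod 2)
    {D : Finset W} {t : W} (ht : t ∉ D) (c : ZMod 2) {z : W} (hz : z ∉ D) (hzt : z ≠ t) :
    Gd Q (HoT_w D t c) z := by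
  refine ⟨by rw [HoT_w_o c hz hzt]; decide, ?_⟩
  rw [HoT_w_o c hz hzt, HoT_L Q ht c z]
  exact HoT_om _

private theorem HoT_pair (s : ZMod 2) : ((s, s) : K) = 0 ↔ s = 0 :=
  ⟨fun h => congrArg Prod.fst h, fun h => by rw [h]; rfl⟩

private theorem HoT_cnt : ∀ s1 s q : ZMod 2,
    (((Finset.univ.filter fun c : ZMod 2 => s1 = 0 ∧ s + q * c = 0).card : ℕ) : ZMod 2) =
      if q = 1 ∧ s1 = 0 then 1 else 0 := by decide

private theorem HoT_ev : ∀ s1 : ZMod 2,
    (((Finset.univ.filter fun _ : ZMod 2 => s1 = 0).card : ℕ) : ZMod 2) = 0 := by decide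

private theorem HoT_one : ∀ q : ZMod 2, q ≠ 1 → 0 = q := by decide

private theorem HoT_cn {W : Type} [Fintype W] [DecidableEq W] (Q : W → W → ZMod 2) (t : W)
    (D : Finset W) : ((cn Q t D : ℕ) : ZMod 2) = ∑ y ∈ Dᶜ, Q t y := by
  have h1 : (Finset.univ.filter fun x : W => x ∉ D ∧ Q t x = 1) =
      Dᶜ.filter fun x => Q t x = 1 := by
    ext x
    simp only [Finset.mem_filter, Finset.mem_univ, true_and, Finset.mem_compl]
  unfold cn
  rw [h1, Finset.card_filter, Nat.cast_sum]
  refine Finset.sum_congr rfl fun y _ => ?_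
  by_cases h : Q t y = 1
  · rw [if_pos h, h, Nat.cast_one]
  · rw [if_neg h, Nat.cast_zero]
    exact HoT_one _ h

private theorem HoT_s {W : Type} [Fintype W] [DecidableEq W] (Q : W → W → ZMod 2) (hQ : SyG Q)
    {t : W} {D : Finset W} (ht : t ∉ D) {x : W} (hx : x ∉ D) (hxt : x ≠ t) :
    ((cn Q t D : ℕ) : ZMod 2) = ∑ y ∈ (insert t (insert x D))ᶜ, Q t y + Q t x := by
  have ht' : t ∉ insert x D := by
    rw [Finset.mem_insert, not_or]
    exact ⟨fun h => hxt h.symm, ht⟩
  have h1 := Finset.sum_add_sum_compl D fun y => Q t y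
  have h2 := Finset.sum_add_sum_compl (insert t (insert x D)) fun y => Q t y
  rw [Finset.sum_insert ht', Finset.sum_insert hx, hQ.diag t, zero_add] at h2
  rw [HoT_cn]
  have h3 : ∑ y ∈ D, Q t y + ∑ y ∈ Dᶜ, Q t y =
      ∑ y ∈ D, Q t y + (∑ y ∈ (insert t (insert x D))ᶜ, Q t y + Q t x) := by
    rw [h1, ← h2]
    ring
  exact add_left_cancel h3

theorem thm_HoT : St_HoT := by
  intro W _ _ Q hQ t D ht
  refine ⟨?_, fun x hx hxt => ?_⟩
  · rw [← ZMod.natCast_eq_zero_iff_even]
    unfold MM
    rw [HoT_card]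
    · have h2 : ((Finset.univ.filter fun v : W → K => (∀ z ∈ D, v z = (fun _ => 0) z) ∧
          L Q v t = 0 ∧ ∀ z, z ∉ D → z ≠ t → Gd Q v z).filter fun v => swp v = v) =
          (Finset.univ.filter fun _ : ZMod 2 =>
            ∑ y ∈ (insert t D)ᶜ, Q t y = 0).image (HoT_w D t) := by
        ext v
        simp only [Finset.mem_filter, Finset.mem_univ, true_and, Finset.mem_image]
        constructor
        · rintro ⟨⟨h3, h4, h5⟩, h6⟩
          have h7 := HoT_eq ht v h6 h3 fun z hz hzt => (h5 z hz hzt).1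
          refine ⟨(v t).1, ?_, h7.symm⟩
          rw [h7, HoT_L Q ht, HoT_pair, hQ.diag t, zero_mul, add_zero] at h4
          exact h4
        · rintro ⟨c, h3, rfl⟩
          refine ⟨⟨fun z hz => HoT_w_D t c hz, ?_, fun z hz hzt => HoT_good Q ht c hz hzt⟩,
            HoT_w_swp D t c⟩
          rw [HoT_L Q ht, HoT_pair, hQ.diag t, zero_mul, add_zero]
          exact h3
      rw [h2, Finset.card_image_of_injective _ (HoT_w_inj ht)]
      exact HoT_ev _
    · intro v hv
      simp only [Finset.mem_filter, Finset.mem_univ, true_and] at hv ⊢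
      obtain ⟨h3, h4, h5⟩ := hv
      refine ⟨fun z hz => ?_, ?_, fun z hz hzt => HoT_gd Q v z (h5 z hz hzt)⟩
      · show ((v z).2, (v z).1) = 0
        rw [h3 z hz]
        rfl
      · show ((L Q v t).2, (L Q v t).1) = 0
        rw [h4]
        rfl
  · have ht' : t ∉ insert x D := by
      rw [Finset.mem_insert, not_or]
      exact ⟨fun h => hxt h.symm, ht⟩
    unfold MX
    rw [HoT_card]
    · have h2 : ((Finset.univ.filter fun v : W → K => (∀ z ∈ D, v z = (fun _ => 0) z) ∧
          L Q v t = 0 ∧ v x = 0 ∧ L Q v x = 0 ∧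
          ∀ z, z ∉ D → z ≠ t → z ≠ x → Gd Q v z).filter fun v => swp v = v) =
          (Finset.univ.filter fun c : ZMod 2 =>
            ∑ y ∈ (insert t (insert x D))ᶜ, Q t y = 0 ∧
            ∑ y ∈ (insert t (insert x D))ᶜ, Q x y + Q x t * c = 0).image
              (HoT_w (insert x D) t) := by
        ext v
        simp only [Finset.mem_filter, Finset.mem_univ, true_and, Finset.mem_image]
        constructor
        · rintro ⟨⟨h3, h4, h5, h6, h7⟩, h8⟩
          have h9 : v = HoT_w (insert x D) t (v t).1 := by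
            refine HoT_eq ht' v h8 (fun z hz => ?_) fun z hz hzt => ?_
            · rcases Finset.mem_insert.1 hz with rfl | h10
              · exact h5
              · exact h3 z h10
            · rw [Finset.mem_insert, not_or] at hz
              exact (h7 z hz.2 hzt hz.1).1
          refine ⟨(v t).1, ⟨?_, ?_⟩, h9.symm⟩
          · rw [h9, HoT_L Q ht', HoT_pair, hQ.diag t, zero_mul, add_zero] at h4
            exact h4
          · rw [h9, HoT_L Q ht', HoT_pair] at h6
            exact h6
        · rintro ⟨c, ⟨h3, h4⟩, rfl⟩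
          refine ⟨⟨fun z hz => HoT_w_D t c (Finset.mem_insert_of_mem hz), ?_,
            HoT_w_D t c (Finset.mem_insert_self _ _), ?_, fun z hz hzt hzx => ?_⟩,
            HoT_w_swp _ t c⟩
          · rw [HoT_L Q ht', HoT_pair, hQ.diag t, zero_mul, add_zero]
            exact h3
          · rw [HoT_L Q ht', HoT_pair]
            exact h4
          · refine HoT_good Q ht' c ?_ hzt
            rw [Finset.mem_insert, not_or]
            exact ⟨hzx, hz⟩
      rw [h2, Finset.card_image_of_injective _ (HoT_w_inj ht'), HoT_cnt]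
      have h3 := HoT_s Q hQ ht hx hxt
      have h4 : (Q x t = 1 ∧ ∑ y ∈ (insert t (insert x D))ᶜ, Q t y = 0) ↔
          (Q t x = 1 ∧ Odd (cn Q t D)) := by
        rw [hQ.symm x t]
        refine and_congr_right fun h5 => ?_
        rw [h5] at h3
        rw [← ZMod.natCast_eq_one_iff_odd, h3]
        constructor
        · intro h6
          rw [h6, zero_add]
        · intro h6
          exact add_eq_right.1 h6
      by_cases h5 : Q t x = 1 ∧ Odd (cn Q t D)
      · rw [if_pos (h4.2 h5), if_pos h5]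
      · rw [if_neg (fun h => h5 (h4.1 h)), if_neg h5]
    · intro v hv
      simp only [Finset.mem_filter, Finset.mem_univ, true_and] at hv ⊢
      obtain ⟨h3, h4, h5, h6, h7⟩ := hv
      refine ⟨fun z hz => ?_, ?_, ?_, ?_, fun z hz hzt hzx => HoT_gd Q v z (h7 z hz hzt hzx)⟩
      · show ((v z).2, (v z).1) = 0
        rw [h3 z hz]
        rfl
      · show ((L Q v t).2, (L Q v t).1) = 0
        rw [h4]
        rfl
      · show ((v x).2, (v x).1) = 0
        rw [h5]
        rfl
      · show ((L Q v x).2, (L Q v x).1) = 0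
        rw [h6]
        rfl

end Pool.Agent.ECT
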