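import Pool.Agent.ECT.St

/-!
# ECT [NbT]: a number of triples is odd (helper73)
-/

set_option autoImplicit false

namespace Pool.Agent.ECT

open Pool.Agent.ECH Pool.Agent.ECM

/-- the ordered pairs in `P1 × P2` -/
private def NbT_C {V : Type} [DecidableEq V] (r : V → ℕ) (P1 P2 : Finset V) : Finset (V × V) :=
  (P1 ×ˢ P2).filter fun p => r p.1 < r p.2

private lemma NbT_swap {V : Type} [DecidableEq V] (r : V → ℕ) (P1 P2 : Finset V) :
    ((P1 ×ˢ P2).filter fun p : V × V => r p.2 < r p.1).card = (NbT_C r P2 P1).card := by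
  classical
  refine Finset.card_bij (fun p _ => (p.2, p.1)) ?_ ?_ ?_
  · intro p hp
    simp only [NbT_C, Finset.mem_filter, Finset.mem_product] at hp ⊢
    exact ⟨⟨hp.1.2, hp.1.1⟩, hp.2⟩
  · intro p _ q _ h
    simp only [Prod.mk.injEq] at h
    exact Prod.ext h.2 h.1
  · intro p hp
    simp only [NbT_C, Finset.mem_filter, Finset.mem_product] at hp
    refine ⟨(p.2, p.1), ?_, rfl⟩
    simp only [Finset.mem_filter, Finset.mem_product]
    exact ⟨⟨hp.1.2, hp.1.1⟩, hp.2⟩

private lemma NbT_C_self {V : Type} [DecidableEq V] (r : V → ℕ) (hr : Function.Injective r)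
    (W : Finset V) : 2 * (NbT_C r W W).card + W.card = W.card * W.card := by
  classical
  have h1 := NbT_swap r W W
  have h2 : W.offDiag = NbT_C r W W ∪ (W ×ˢ W).filter fun p : V × V => r p.2 < r p.1 := by
    ext p
    simp only [NbT_C, Finset.mem_offDiag, Finset.mem_union, Finset.mem_filter, Finset.mem_product]
    constructor
    · rintro ⟨ha, hb, hne⟩
      have : r p.1 ≠ r p.2 := fun h => hne (hr h)
      rcases lt_or_gt_of_ne this with h | h
      · exact Or.inl ⟨⟨ha, hb⟩, h⟩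
      · exact Or.inr ⟨⟨ha, hb⟩, h⟩
    · rintro (⟨⟨ha, hb⟩, h⟩ | ⟨⟨ha, hb⟩, h⟩)
      · exact ⟨ha, hb, fun e => by rw [e] at h; exact lt_irrefl _ h⟩
      · exact ⟨ha, hb, fun e => by rw [e] at h; exact lt_irrefl _ h⟩
  have h3 : Disjoint (NbT_C r W W) ((W ×ˢ W).filter fun p : V × V => r p.2 < r p.1) := by
    rw [Finset.disjoint_left]
    intro p hp hq
    simp only [NbT_C, Finset.mem_filter] at hp hq
    exact lt_asymm hp.2 hq.2
  have h4 := Finset.offDiag_card W
  rw [h2, Finset.card_union_of_disjoint h3, h1] at h4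
  have h5 : W.card ≤ W.card * W.card := Nat.le_mul_self _
  omega

private lemma NbT_C_mix {V : Type} [DecidableEq V] (r : V → ℕ) (hr : Function.Injective r)
    (P1 P2 : Finset V) (hd : Disjoint P1 P2) :
    (NbT_C r P1 P2).card + (NbT_C r P2 P1).card = P1.card * P2.card := by
  classical
  rw [← NbT_swap r P1 P2, ← Finset.card_product, ← Finset.card_union_of_disjoint]
  · congr 1
    ext p
    simp only [NbT_C, Finset.mem_union, Finset.mem_filter, Finset.mem_product]
    constructor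
    · rintro (⟨h, _⟩ | ⟨h, _⟩)
      · exact h
      · exact h
    · rintro ⟨ha, hb⟩
      have : r p.1 ≠ r p.2 := fun h => by
        have e := hr h
        rw [e] at ha
        exact Finset.disjoint_left.1 hd ha hb
      rcases lt_or_gt_of_ne this with h | h
      · exact Or.inl ⟨⟨ha, hb⟩, h⟩
      · exact Or.inr ⟨⟨ha, hb⟩, h⟩
  · rw [Finset.disjoint_left]
    intro p hp hq
    simp only [NbT_C, Finset.mem_filter] at hp hq
    exact lt_asymm hp.2 hq.2

/-- the triples with given sets -/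
private def NbT_T {V : Type} [Fintype V] [DecidableEq V] (r : V → ℕ) (P1 P2 P3 : Finset V) :
    Finset (V × V × V) :=
  (TT r).filter fun t => t.1 ∈ P1 ∧ t.2.1 ∈ P2 ∧ t.2.2 ∈ P3

private lemma NbT_T_card {V : Type} [Fintype V] [DecidableEq V] (r : V → ℕ)
    (P1 P2 P3 : Finset V) (m : ℕ)
    (hm : ∀ p ∈ NbT_C r P1 P2, ((P3.erase p.1).erase p.2).card = m) :
    (NbT_T r P1 P2 P3).card = (NbT_C r P1 P2).card * m := by
  classical
  have h1 : ∀ t ∈ NbT_T r P1 P2 P3, (t.1, t.2.1) ∈ NbT_C r P1 P2 := by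
    intro t ht
    simp only [NbT_T, TT, NbT_C, Finset.mem_filter, Finset.mem_univ, true_and,
      Finset.mem_product] at ht ⊢
    exact ⟨⟨ht.2.1, ht.2.2.1⟩, ht.1.1⟩
  rw [Finset.card_eq_sum_card_fiberwise (f := fun t : V × V × V => (t.1, t.2.1)) h1,
    Finset.sum_const_nat (m := m)]
  intro p hp
  rw [← hm p hp]
  simp only [NbT_C, Finset.mem_filter, Finset.mem_product] at hp
  refine Finset.card_bij (fun t _ => t.2.2) ?_ ?_ ?_
  · intro t ht
    simp only [NbT_T, TT, Finset.mem_filter, Finset.mem_univ, true_and] at ht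
    obtain ⟨⟨⟨_, ha, hb⟩, _, _, hc⟩, he⟩ := ht
    have e1 : t.1 = p.1 := congrArg Prod.fst he
    have e2 : t.2.1 = p.2 := congrArg Prod.snd he
    rw [Finset.mem_erase, Finset.mem_erase]
    exact ⟨fun e => hb (e.trans e2.symm), fun e => ha (e.trans e1.symm), hc⟩
  · intro t ht t' ht' h
    simp only [NbT_T, TT, Finset.mem_filter, Finset.mem_univ, true_and] at ht ht'
    have e1 : t.1 = t'.1 := (congrArg Prod.fst ht.2).trans (congrArg Prod.fst ht'.2).symm
    have e2 : t.2.1 = t'.2.1 := (congrArg Prod.snd ht.2).trans (congrArg Prod.snd ht'.2).symm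
    exact Prod.ext e1 (Prod.ext e2 h)
  · intro s hs
    rw [Finset.mem_erase, Finset.mem_erase] at hs
    refine ⟨(p.1, p.2, s), ?_, rfl⟩
    simp only [NbT_T, TT, Finset.mem_filter, Finset.mem_univ, true_and]
    exact ⟨⟨⟨hp.2, hs.2.1, hs.1⟩, hp.1.1, hp.1.2, hs.2.2⟩, trivial⟩

private lemma NbT_er {V : Type} [DecidableEq V] (s : Finset V) (a : V) :
    (s.erase a).card + (if a ∈ s then 1 else 0) = s.card := by
  by_cases h : a ∈ s
  · rw [if_pos h, Finset.card_erase_add_one h]
  · rw [if_neg h, Finset.erase_eq_of_notMem h, add_zero]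

/-- [NbT] -/
theorem thm_NbT : St_NbT := by
  classical
  intro W _ _ Q t r hr htt j k hk hj
  set C : Finset W := Finset.univ.filter fun x => Q t x = 1 with hC
  set B : Finset W := Finset.univ.filter fun x => x ≠ t ∧ Q t x ≠ 1 with hB
  have memC : ∀ x, x ∈ C ↔ Q t x = 1 := fun x => by
    rw [hC, Finset.mem_filter]
    exact ⟨fun h => h.2, fun h => ⟨Finset.mem_univ _, h⟩⟩
  have memB : ∀ x, x ∈ B ↔ x ≠ t ∧ Q t x ≠ 1 := fun x => by
    rw [hB, Finset.mem_filter]
    exact ⟨fun h => h.2, fun h => ⟨Finset.mem_univ _, h⟩⟩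
  have htC : t ∉ C := fun h => by
    have h1 := (memC t).1 h
    rw [htt] at h1
    exact absurd h1 (by decide)
  have hCc : C.card = 4 * j + 2 := by
    rw [← hj]
    unfold cn
    congr 1
    ext x
    simp only [Finset.mem_filter, Finset.mem_univ, true_and, Finset.notMem_empty,
      not_false_iff, hC]
  have hdisj : Disjoint C B := by
    rw [Finset.disjoint_left]
    intro x hx hx'
    exact ((memB x).1 hx').2 ((memC x).1 hx)
  have hBc : B.card + (4 * j + 2) = 4 * k + 1 := by
    have h1 : C ∪ B = Finset.univ.erase t := by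
      ext x
      rw [Finset.mem_union, memC, memB, Finset.mem_erase]
      constructor
      · rintro (h | h)
        · exact ⟨fun e => htC (by rw [← e]; exact (memC x).2 h), Finset.mem_univ _⟩
        · exact ⟨h.1, Finset.mem_univ _⟩
      · rintro ⟨h, _⟩
        by_cases h2 : Q t x = 1
        · exact Or.inl h2
        · exact Or.inr ⟨h, h2⟩
    have h2 := Finset.card_union_of_disjoint hdisj
    rw [h1, Finset.card_erase_of_mem (Finset.mem_univ _), Finset.card_univ, hk, hCc] at h2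
    omega
  obtain ⟨m, hm⟩ : ∃ m, B.card = 4 * m + 3 := ⟨k - j - 1, by omega⟩
  -- the four numbers
  have n1 : (NbT_T r B B B).card = (NbT_C r B B).card * (4 * m + 1) := by
    refine NbT_T_card r B B B _ fun p hp => ?_
    simp only [NbT_C, Finset.mem_filter, Finset.mem_product] at hp
    have hne : p.2 ≠ p.1 := fun e => by
      have h := hp.2
      rw [e] at h
      exact lt_irrefl _ h
    rw [Finset.card_erase_of_mem (Finset.mem_erase.2 ⟨hne, hp.1.2⟩),
      Finset.card_erase_of_mem hp.1.1, hm]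
    omega
  have n2 : (NbT_T r B B C).card = (NbT_C r B B).card * (4 * j + 2) := by
    refine NbT_T_card r B B C _ fun p hp => ?_
    simp only [NbT_C, Finset.mem_filter, Finset.mem_product] at hp
    have e1 : p.1 ∉ C := fun h => Finset.disjoint_left.1 hdisj h hp.1.1
    have e2 : p.2 ∉ C := fun h => Finset.disjoint_left.1 hdisj h hp.1.2
    rw [Finset.erase_eq_of_notMem e1, Finset.erase_eq_of_notMem e2, hCc]
  have n3 : (NbT_T r C B B).card = (NbT_C r C B).card * (4 * m + 2) := by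
    refine NbT_T_card r C B B _ fun p hp => ?_
    simp only [NbT_C, Finset.mem_filter, Finset.mem_product] at hp
    have e1 : p.1 ∉ B := fun h => Finset.disjoint_left.1 hdisj hp.1.1 h
    rw [Finset.erase_eq_of_notMem e1, Finset.card_erase_of_mem hp.1.2, hm]
    omega
  have n4 : (NbT_T r B C B).card = (NbT_C r B C).card * (4 * m + 2) := by
    refine NbT_T_card r B C B _ fun p hp => ?_
    simp only [NbT_C, Finset.mem_filter, Finset.mem_product] at hp
    have e2 : p.2 ∉ B := fun h => Finset.disjoint_left.1 hdisj hp.1.2 h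
    rw [Finset.erase_eq_of_notMem fun h => e2 (Finset.mem_of_mem_erase h),
      Finset.card_erase_of_mem hp.1.1, hm]
    omega
  have c1 := NbT_C_self r hr B
  have c2 := NbT_C_mix r hr C B hdisj
  rw [hm] at c1
  rw [hCc, hm] at c2
  -- the summands
  have hf : ∀ u ∈ TU r t, (cn Q t (Ts u) + 1) / 2 = 2 * j +
      ((if u.1 ∈ B ∧ u.2.1 ∈ B ∧ u.2.2 ∈ B then 1 else 0) +
      (if u.1 ∈ B ∧ u.2.1 ∈ B ∧ u.2.2 ∈ C then 1 else 0) +
      (if u.1 ∈ C ∧ u.2.1 ∈ B ∧ u.2.2 ∈ B then 1 else 0) +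
      (if u.1 ∈ B ∧ u.2.1 ∈ C ∧ u.2.2 ∈ B then 1 else 0)) := by
    intro u hu
    simp only [TU, TT, Ts, Finset.mem_filter, Finset.mem_univ, true_and, Finset.mem_insert,
      Finset.mem_singleton, not_or] at hu
    obtain ⟨⟨h12, h31, h32⟩, ht1, ht2, ht3⟩ := hu
    have h21 : u.2.1 ≠ u.1 := fun e => by
      rw [e] at h12
      exact lt_irrefl _ h12
    have hcn : cn Q t (Ts u) = (((C.erase u.1).erase u.2.1).erase u.2.2).card := by
      unfold cn
      congr 1
      ext x
      simp only [Ts, Finset.mem_filter, Finset.mem_univ, true_and, Finset.mem_insert,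
        Finset.mem_singleton, not_or, Finset.mem_erase, memC]
      tauto
    have b1 : u.1 ∈ B ↔ u.1 ∉ C := by
      rw [memB, memC]
      exact ⟨fun h => h.2, fun h => ⟨fun e => ht1 e.symm, h⟩⟩
    have b2 : u.2.1 ∈ B ↔ u.2.1 ∉ C := by
      rw [memB, memC]
      exact ⟨fun h => h.2, fun h => ⟨fun e => ht2 e.symm, h⟩⟩
    have b3 : u.2.2 ∈ B ↔ u.2.2 ∉ C := by
      rw [memB, memC]
      exact ⟨fun h => h.2, fun h => ⟨fun e => ht3 e.symm, h⟩⟩
    have k1 := NbT_er C u.1
    have k2 := NbT_er (C.erase u.1) u.2.1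
    have k3 := NbT_er ((C.erase u.1).erase u.2.1) u.2.2
    have m2 : u.2.1 ∈ C.erase u.1 ↔ u.2.1 ∈ C := by
      rw [Finset.mem_erase]
      exact ⟨fun h => h.2, fun h => ⟨h21, h⟩⟩
    have m3 : u.2.2 ∈ (C.erase u.1).erase u.2.1 ↔ u.2.2 ∈ C := by
      rw [Finset.mem_erase, Finset.mem_erase]
      exact ⟨fun h => h.2.2, fun h => ⟨h32, h31, h⟩⟩
    simp only [m2] at k2
    simp only [m3] at k3
    rw [hCc] at k1
    rw [hcn]
    simp only [b1, b2, b3]
    by_cases x1 : u.1 ∈ C <;> by_cases x2 : u.2.1 ∈ C <;> by_cases x3 : u.2.2 ∈ C <;>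
      simp only [x1, x2, x3, if_true, if_false, not_true, not_false_iff, true_and, and_true,
        false_and, and_false] at k1 k2 k3 ⊢ <;> omega
  have hsum : ∀ P1 P2 P3 : Finset W, t ∉ P1 → t ∉ P2 → t ∉ P3 →
      ∑ u ∈ TU r t, (if u.1 ∈ P1 ∧ u.2.1 ∈ P2 ∧ u.2.2 ∈ P3 then 1 else 0) =
        (NbT_T r P1 P2 P3).card := by
    intro P1 P2 P3 g1 g2 g3
    rw [← Finset.sum_filter, Finset.sum_const, smul_eq_mul, mul_one]
    congr 1
    ext u
    simp only [TU, NbT_T, Ts, Finset.mem_filter, Finset.mem_insert, Finset.mem_singleton,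
      not_or]
    constructor
    · rintro ⟨⟨h1, _⟩, h2⟩
      exact ⟨h1, h2⟩
    · rintro ⟨h1, h2, h3, h4⟩
      exact ⟨⟨h1, fun e => g1 (by rw [e]; exact h2), fun e => g2 (by rw [e]; exact h3),
        fun e => g3 (by rw [e]; exact h4)⟩, h2, h3, h4⟩
  have htB : t ∉ B := fun h => ((memB t).1 h).1 rfl
  rw [Finset.sum_congr rfl hf, Finset.sum_add_distrib, Finset.sum_add_distrib,
    Finset.sum_add_distrib, Finset.sum_add_distrib, hsum B B B htB htB htB,
    hsum B B C htB htB htC, hsum C B B htC htB htB, hsum B C B htB htC htB, n1, n2, n3, n4,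
    Finset.sum_const, smul_eq_mul]
  have c3 : (NbT_C r B B).card = (4 * m + 3) * (2 * m + 1) := by nlinarith
  rw [c3]
  set X := (NbT_C r C B).card with hX
  set Y := (NbT_C r B C).card with hY
  set N := (TU r t).card with hN
  refine ⟨N * j + (m * (4 * m + 3) * (4 * m + 1) + (8 * m * m + 8 * m + 1)) +
    (4 * m + 3) * (2 * m + 1) * (2 * j + 1) + (2 * m + 1) * (X + Y), ?_⟩
  ring

end Pool.Agent.ECT
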