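import Pool.Agent.ECT.St

/-!
# ECT: the module NhT

Induction on the edges outside of `D` and `t`.
-/

set_option autoImplicit false

namespace Pool.Agent.ECT

open Pool.Agent.ECH Pool.Agent.ECM

private lemma NhT_ne_one {z : ZMod 2} (h : z ≠ 1) : z = 0 := by
  revert h; revert z; decide

private lemma NhT_zero {V : Type} [Fintype V] [DecidableEq V] {Q : V → V → ZMod 2} (hQ : SyG Q)
    {r : V → ℕ} (hr : Function.Injective r) {D : Finset V} (h0 : ed Q r D = 0) :
    ∀ x, x ∉ D → ∀ y, y ∉ D → Q x y = 0 := by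
  have key : ∀ x, x ∉ D → ∀ y, y ∉ D → r x < r y → Q x y = 0 := by
    intro x hx y hy hxy
    apply NhT_ne_one
    intro h1
    unfold ed at h0
    rw [Finset.card_eq_zero] at h0
    have hm : (x, y) ∈ Finset.univ.filter
        (fun p : V × V => r p.1 < r p.2 ∧ p.1 ∉ D ∧ p.2 ∉ D ∧ Q p.1 p.2 = 1) := by
      simp only [Finset.mem_filter, Finset.mem_univ, true_and]
      exact ⟨hxy, hx, hy, h1⟩
    rw [h0] at hm
    exact absurd hm (Finset.notMem_empty _)
  intro x hx y hy
  rcases lt_trichotomy (r x) (r y) with h | h | h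
  · exact key x hx y hy h
  · rw [hr h]; exact hQ.diag y
  · rw [hQ.symm x y]; exact key y hy x hx h

private lemma NhT_tog {V : Type} [DecidableEq V] {Q : V → V → ZMod 2} (hQ : SyG Q)
    {a b : V} (hab : a ≠ b) : SyG (tog Q a b) := by
  constructor
  · intro x
    unfold tog
    rw [hQ.diag x, if_neg, add_zero]
    rintro (⟨h1, h2⟩ | ⟨h1, h2⟩)
    · exact hab (h1.symm.trans h2)
    · exact hab (h2.symm.trans h1)
  · intro x y
    unfold tog
    rw [hQ.symm x y]
    congr 1
    by_cases h : (x = a ∧ y = b) ∨ (x = b ∧ y = a)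
    · rw [if_pos h, if_pos]
      rcases h with ⟨h1, h2⟩ | ⟨h1, h2⟩
      · exact Or.inr ⟨h2, h1⟩
      · exact Or.inl ⟨h2, h1⟩
    · rw [if_neg h, if_neg]
      intro h'
      apply h
      rcases h' with ⟨h1, h2⟩ | ⟨h1, h2⟩
      · exact Or.inr ⟨h2, h1⟩
      · exact Or.inl ⟨h2, h1⟩

private lemma NhT_ed {V : Type} [Fintype V] [DecidableEq V] {Q : V → V → ZMod 2}
    {r : V → ℕ} {D : Finset V} {a b : V} (hr : r a < r b) (ha : a ∉ D) (hb : b ∉ D)
    (h1 : Q a b = 1) : ed (tog Q a b) r D + 1 = ed Q r D := by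
  have hs : (Finset.univ.filter fun p : V × V => r p.1 < r p.2 ∧ p.1 ∉ D ∧ p.2 ∉ D ∧
      tog Q a b p.1 p.2 = 1) = (Finset.univ.filter fun p : V × V => r p.1 < r p.2 ∧ p.1 ∉ D ∧
        p.2 ∉ D ∧ Q p.1 p.2 = 1).erase (a, b) := by
    ext p
    obtain ⟨x, y⟩ := p
    simp only [Finset.mem_filter, Finset.mem_univ, true_and, Finset.mem_erase, ne_eq, Prod.mk.injEq]
    constructor
    · rintro ⟨h2, h3, h4, h5⟩
      have hne : ¬ (x = a ∧ y = b) := by
        rintro ⟨rfl, rfl⟩
        unfold tog at h5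
        rw [h1] at h5
        simp at h5
      refine ⟨hne, h2, h3, h4, ?_⟩
      unfold tog at h5
      rw [if_neg, add_zero] at h5
      · exact h5
      · rintro (h | ⟨rfl, rfl⟩)
        · exact hne h
        · exact absurd h2 (not_lt.mpr hr.le)
    · rintro ⟨hne, h2, h3, h4, h5⟩
      refine ⟨h2, h3, h4, ?_⟩
      unfold tog
      rw [if_neg, add_zero]
      · exact h5
      · rintro (h | ⟨rfl, rfl⟩)
        · exact hne h
        · exact absurd h2 (not_lt.mpr hr.le)
  unfold ed
  rw [hs]
  apply Finset.card_erase_add_one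
  simp only [Finset.mem_filter, Finset.mem_univ, true_and]
  exact ⟨hr, ha, hb, h1⟩

private lemma NhT_cn {W : Type} [Fintype W] [DecidableEq W] {Q : W → W → ZMod 2} {t a b : W}
    (D : Finset W) (ha : a ≠ t) (hb : b ≠ t) : cn (tog Q a b) t D = cn Q t D := by
  unfold cn
  congr 1
  ext x
  simp only [Finset.mem_filter, Finset.mem_univ, true_and]
  have h : tog Q a b t x = Q t x := by
    unfold tog
    rw [if_neg, add_zero]
    rintro (⟨h1, _⟩ | ⟨h1, _⟩)
    · exact ha h1.symm
    · exact hb h1.symm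
  rw [h]

theorem thm_NhT (h1 : St_TgT) (h2 : St_BaT) : St_NhT := by
  intro W _ _ Q hQ t D htD hev
  let r : W → ℕ := fun x => (Fintype.equivFin W x : ℕ)
  have hr : Function.Injective r := by
    intro x y hxy
    exact (Fintype.equivFin W).injective (Fin.ext hxy)
  have key : ∀ n : ℕ, ∀ Q : W → W → ZMod 2, SyG Q → ed Q r (insert t D) = n →
      (MM Q t D (fun _ => 0) : ZMod 4) = 2 * ((cn Q t D / 2 : ℕ) : ZMod 4) := by
    intro n
    induction n with
    | zero =>
      intro Q hQ h0
      refine h2 W Q hQ t D htD hev ?_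
      intro x y hx hy
      exact NhT_zero hQ hr h0 x hx y hy
    | succ n ih =>
      intro Q hQ h0
      have hne : (Finset.univ.filter fun p : W × W => r p.1 < r p.2 ∧ p.1 ∉ insert t D ∧
        p.2 ∉ insert t D ∧ Q p.1 p.2 = 1).Nonempty := by
        rw [← Finset.card_pos]
        unfold ed at h0
        omega
      obtain ⟨⟨a, b⟩, hp⟩ := hne
      simp only [Finset.mem_filter, Finset.mem_univ, true_and] at hp
      obtain ⟨hab, ha, hb, hQab⟩ := hp
      have hne : a ≠ b := by
        rintro rfl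
        exact lt_irrefl _ hab
      have hat : a ≠ t := by
        rintro rfl
        exact ha (Finset.mem_insert_self _ _)
      have hbt : b ≠ t := by
        rintro rfl
        exact hb (Finset.mem_insert_self _ _)
      have haD : a ∉ D := fun h => ha (Finset.mem_insert_of_mem h)
      have hbD : b ∉ D := fun h => hb (Finset.mem_insert_of_mem h)
      have e1 := NhT_ed hab ha hb hQab
      have e2 := ih (tog Q a b) (NhT_tog hQ hne) (by omega)
      have e3 := h1 W Q hQ t D a b htD hne haD hbD hat hbt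
      rw [e3, NhT_cn D hat hbt] at e2
      exact e2
  exact key _ Q hQ rfl

end Pool.Agent.ECT
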