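import Pool.Agent.ECT.St

/-! # ECT: [PfT] a partition (MP_854819_co) -/

set_option autoImplicit false

namespace Pool.Agent.ECT

open Finset Pool.Agent.ECH Pool.Agent.ECM

private theorem PfT_omswp : ∀ p q : K, om (p.2, p.1) (q.2, q.1) = om p q := by
  decide

private theorem PfT_zero : ∀ p : K, ((p.2, p.1) : K) = 0 ↔ p = 0 := by
  decide

private theorem PfT_L {V : Type} [Fintype V] (Q : V → V → ZMod 2) (v : V → K) (x : V) :
    L Q (swp v) x = ((L Q v x).2, (L Q v x).1) := rfl

private theorem PfT_gd {V : Type} [Fintype V] (Q : V → V → ZMod 2) (v : V → K) (x : V)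
    (h : Gd Q v x) : Gd Q (swp v) x := by
  refine ⟨?_, ?_⟩
  · intro h0
    exact h.1 ((PfT_zero (v x)).1 h0)
  · rw [PfT_L]
    exact (PfT_omswp (v x) (L Q v x)).trans h.2

private theorem PfT_cnt {V : Type} [Fintype V] [DecidableEq V] (t : V) (v : V → K) :
    Nr t v 0 + Nr t v k0 + Nr t v k1 + Nr t v k2 + 1 = Fintype.card V := by
  have h : (univ.erase t).card = ∑ k : K, ((univ.erase t).filter fun x => v x = k).card := by
    exact Finset.card_eq_sum_card_fiberwise fun x _ => Finset.mem_coe.2 (Finset.mem_univ _)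
  have h2 : (Finset.univ : Finset K) = {0, k0, k1, k2} := by
    decide
  have h3 : ∀ k, ((univ.erase t).filter fun x => v x = k).card = Nr t v k := by
    intro k
    unfold Nr
    congr 1
    ext x
    rw [Finset.mem_filter, Finset.mem_filter, Finset.mem_erase]
    tauto
  rw [h2, Finset.sum_insert (by decide), Finset.sum_insert (by decide),
    Finset.sum_insert (by decide), Finset.sum_singleton, h3, h3, h3, h3] at h
  have h4 : (univ.erase t).card + 1 = Fintype.card V := by
    rw [Finset.card_erase_add_one (Finset.mem_univ t), Finset.card_univ]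
  omega

private theorem PfT_four (m : ℕ) (h : ((m : ℕ) : ZMod 2) = 0) :
    (2 : ZMod 4) * (m : ZMod 4) = 0 := by
  rw [ZMod.natCast_eq_zero_iff] at h
  obtain ⟨c, rfl⟩ := h
  have : (2 : ZMod 4) * ((2 * c : ℕ) : ZMod 4) = ((4 : ℕ) : ZMod 4) * (c : ZMod 4) := by
    push_cast
    ring
  rw [this, show ((4 : ℕ) : ZMod 4) = 0 from by decide, zero_mul]

private theorem PfT_four' (a : ZMod 4) : 2 * a + 2 * a = 0 := by
  revert a
  decide

theorem thm_PfT (hTr : St_TrT) (hHo : St_HoT) (hNh : St_NhT) (hCt : St_CtT) (hPr : St_PrT)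
    (hNb : St_NbT) : St_PfT := by
  intro W _ _ Q t hQ j k hn hj
  by_contra hcon
  set r : W → ℕ := fun x => (Fintype.equivFin W x : ℕ) with hrdef
  have hr : Function.Injective r := by
    intro x y hxy
    exact (Fintype.equivFin W).injective (Fin.ext hxy)
  obtain ⟨hCt1, hCt2⟩ := hCt W Q t hQ r
  have hNb1 := hNb W Q t r hr (hQ.diag t) j k hn hj
  have hSy : SyG Q := ⟨hQ.diag, hQ.symm⟩
  -- the sum over the good colourings is zero
  have hS : ∑ v ∈ univ.filter (fun v : W → K => L Q v t = 0 ∧ ∀ x, x ≠ t → Gd Q v x),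
      (hh r t v : ZMod 4) = 0 := by
    refine hPr W r t hr 4 _ ?_ ?_
    · intro v hv
      rw [Finset.mem_filter] at hv ⊢
      refine ⟨Finset.mem_univ _, ?_, fun x hx => PfT_gd Q v x (hv.2.2 x hx)⟩
      rw [PfT_L]
      exact (PfT_zero (L Q v t)).2 hv.2.1
    · intro v hv
      have hg := (Finset.mem_filter.1 hv).2
      have h0 : Nr t v 0 = 0 := by
        unfold Nr
        rw [Finset.card_eq_zero, Finset.filter_eq_empty_iff]
        intro x _ hx
        exact (hg.2 x hx.1).1 hx.2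
      have hc := PfT_cnt t v
      rw [h0, hn] at hc
      have hne : ¬ (Odd (Nr t v k0) ∧ Odd (Nr t v k1) ∧ Odd (Nr t v k2)) := fun h =>
        hcon ⟨v, hg.2, hg.1, h⟩
      generalize Nr t v k0 = A at hc hne ⊢
      generalize Nr t v k1 = B at hc hne ⊢
      generalize Nr t v k2 = C at hc hne ⊢
      rcases Nat.even_or_odd A with hA | hA <;> rcases Nat.even_or_odd B with hB | hB <;>
        rcases Nat.even_or_odd C with hC | hC
      · obtain ⟨x, rfl⟩ := hA
        obtain ⟨y, rfl⟩ := hB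
        exact ⟨x * y * C, by ring⟩
      · obtain ⟨x, rfl⟩ := hA
        obtain ⟨y, rfl⟩ := hB
        exact ⟨x * y * C, by ring⟩
      · obtain ⟨x, rfl⟩ := hA
        obtain ⟨y, rfl⟩ := hC
        exact ⟨x * y * B, by ring⟩
      · obtain ⟨x, rfl⟩ := hA
        obtain ⟨y, rfl⟩ := hB
        obtain ⟨z, rfl⟩ := hC
        omega
      · obtain ⟨x, rfl⟩ := hB
        obtain ⟨y, rfl⟩ := hC
        exact ⟨x * y * A, by ring⟩
      · obtain ⟨x, rfl⟩ := hA
        obtain ⟨y, rfl⟩ := hB
        obtain ⟨z, rfl⟩ := hC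
        omega
      · obtain ⟨x, rfl⟩ := hA
        obtain ⟨y, rfl⟩ := hB
        obtain ⟨z, rfl⟩ := hC
        omega
      · exact absurd ⟨hA, hB, hC⟩ hne
  -- the corrections
  have hX : ∀ x : W, x ≠ t → ((∑ u ∈ (TU r t).filter (fun u => x ∉ Ts u),
      MX Q t (Ts u) (Td u) x : ℕ) : ZMod 2) = 0 := by
    intro x hxt
    rw [← hCt2 x hxt, Nat.cast_sum]
    refine hPr W r t hr 2 _ ?_ ?_
    · intro v hv
      rw [Finset.mem_filter] at hv ⊢
      refine ⟨Finset.mem_univ _, ?_, (PfT_zero (v x)).2 hv.2.2.1, ?_,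
        fun z hz hzx => PfT_gd Q v z (hv.2.2.2.2 z hz hzx)⟩
      · rw [PfT_L]
        exact (PfT_zero (L Q v t)).2 hv.2.1
      · rw [PfT_L]
        exact (PfT_zero (L Q v x)).2 hv.2.2.2.1
    · intro v hv
      rw [Finset.mem_filter] at hv
      have h0 : Nr t v 0 = 1 := by
        unfold Nr
        rw [Finset.card_eq_one]
        refine ⟨x, ?_⟩
        ext z
        rw [Finset.mem_filter, Finset.mem_singleton]
        constructor
        · rintro ⟨-, hzt, hz⟩
          by_contra hzx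
          exact (hv.2.2.2.2 z hzt hzx).1 hz
        · rintro rfl
          exact ⟨Finset.mem_univ _, hxt, hv.2.2.1⟩
      have hc := PfT_cnt t v
      rw [h0, hn] at hc
      generalize Nr t v k0 = A at hc ⊢
      generalize Nr t v k1 = B at hc ⊢
      generalize Nr t v k2 = C at hc ⊢
      rcases Nat.even_or_odd A with hA | hA
      · exact Dvd.dvd.mul_right (Dvd.dvd.mul_right hA.two_dvd B) C
      · rcases Nat.even_or_odd B with hB | hB
        · exact Dvd.dvd.mul_right (Dvd.dvd.mul_left hB.two_dvd A) C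
        · rcases Nat.even_or_odd C with hC | hC
          · exact Dvd.dvd.mul_left hC.two_dvd (A * B)
          · obtain ⟨x1, rfl⟩ := hA
            obtain ⟨y1, rfl⟩ := hB
            obtain ⟨z1, rfl⟩ := hC
            omega
  have hX2 : (2 : ZMod 4) * ((∑ u ∈ TU r t, ∑ x ∈ (insert t (Ts u))ᶜ,
      MX Q t (Ts u) (Td u) x : ℕ) : ZMod 4) = 0 := by
    apply PfT_four
    have h1 : ∑ u ∈ TU r t, ∑ x ∈ (insert t (Ts u))ᶜ, MX Q t (Ts u) (Td u) x =
        ∑ x : W, if x ≠ t then
          ∑ u ∈ (TU r t).filter (fun u => x ∉ Ts u), MX Q t (Ts u) (Td u) x else 0 := by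
      have h2 : ∀ u, ∑ x ∈ (insert t (Ts u))ᶜ, MX Q t (Ts u) (Td u) x =
          ∑ x : W, if x ≠ t then (if x ∉ Ts u then MX Q t (Ts u) (Td u) x else 0) else 0 := by
        intro u
        rw [← Finset.sum_filter, ← Finset.sum_filter]
        refine Finset.sum_congr ?_ fun _ _ => rfl
        ext x
        rw [Finset.mem_compl, Finset.mem_filter, Finset.mem_filter, Finset.mem_insert, not_or]
        exact ⟨fun h => ⟨⟨Finset.mem_univ _, h.1⟩, h.2⟩, fun h => ⟨h.1.2, h.2⟩⟩
      rw [Finset.sum_congr rfl fun u _ => h2 u, Finset.sum_comm]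
      refine Finset.sum_congr rfl fun x _ => ?_
      by_cases hxt : x ≠ t
      · rw [if_pos hxt, Finset.sum_filter]
        exact Finset.sum_congr rfl fun u _ => if_pos hxt
      · rw [if_neg hxt]
        exact Finset.sum_eq_zero fun u _ => if_neg hxt
    rw [h1, Nat.cast_sum]
    refine Finset.sum_eq_zero fun x _ => ?_
    by_cases hxt : x ≠ t
    · rw [if_pos hxt]
      exact hX x hxt
    · rw [if_neg hxt]
      exact Nat.cast_zero
  -- every triple
  have hT : ∀ u ∈ TU r t, (MM Q t (Ts u) (Td u) : ZMod 4) =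
      2 * (((cn Q t (Ts u) + 1) / 2 : ℕ) : ZMod 4) +
        2 * ∑ x ∈ (insert t (Ts u))ᶜ, (MX Q t (Ts u) (Td u) x : ZMod 4) := by
    intro u hu
    rw [TU, Finset.mem_filter, TT, Finset.mem_filter] at hu
    obtain ⟨⟨-, ht1, ht2, ht3⟩, htu⟩ := hu
    have h1 := hTr W Q t (Ts u) (Td u) htu
    have hne : u.1 ≠ u.2.1 := by
      intro h
      rw [h] at ht1
      exact lt_irrefl _ ht1
    have hcard : Even (insert t (Ts u))ᶜ.card := by
      have h3 : (Ts u).card = 3 := by
        unfold Ts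
        rw [Finset.card_eq_three]
        exact ⟨u.1, u.2.1, u.2.2, hne, ht2.symm, ht3.symm, rfl⟩
      have h4 : (insert t (Ts u)).card = 4 := by
        rw [Finset.card_insert_of_notMem htu, h3]
      have h5 : (insert t (Ts u)).card ≤ Fintype.card W := Finset.card_le_univ _
      rw [Finset.card_compl, h4, hn]
      rw [h4, hn] at h5
      exact ⟨2 * k - 1, by omega⟩
    have h2 := hNh W Q hSy t (Ts u) htu hcard
    have h3 : (2 : ZMod 4) * ∑ x ∈ (insert t (Ts u))ᶜ, (MX Q t (Ts u) (fun _ => 0) x : ZMod 4) =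
        2 * ((if Odd (cn Q t (Ts u)) then 1 else 0 : ℕ) : ZMod 4) := by
      rw [← Nat.cast_sum]
      have h4 : ((∑ x ∈ (insert t (Ts u))ᶜ, MX Q t (Ts u) (fun _ => 0) x +
          (if Odd (cn Q t (Ts u)) then 1 else 0) : ℕ) : ZMod 2) = 0 := by
        rw [Nat.cast_add, Nat.cast_sum]
        have h5 : ∀ x ∈ (insert t (Ts u))ᶜ, ((MX Q t (Ts u) (fun _ => 0) x : ℕ) : ZMod 2) =
            if Q t x = 1 ∧ Odd (cn Q t (Ts u)) then 1 else 0 := by
          intro x hx
          rw [Finset.mem_compl, Finset.mem_insert, not_or] at hx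
          exact (hHo W Q hSy t (Ts u) htu).2 x hx.2 hx.1
        rw [Finset.sum_congr rfl h5]
        by_cases ho : Odd (cn Q t (Ts u))
        · have h6 : (∑ x ∈ (insert t (Ts u))ᶜ, if Q t x = 1 ∧ Odd (cn Q t (Ts u)) then
              (1 : ZMod 2) else 0) = (cn Q t (Ts u) : ZMod 2) := by
            rw [Finset.sum_boole]
            congr 2
            ext x
            rw [Finset.mem_filter, Finset.mem_filter, Finset.mem_compl, Finset.mem_insert, not_or]
            constructor
            · rintro ⟨⟨-, h7⟩, h8, -⟩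
              exact ⟨Finset.mem_univ _, h7, h8⟩
            · rintro ⟨-, h7, h8⟩
              refine ⟨⟨?_, h7⟩, h8, ho⟩
              rintro rfl
              rw [hQ.diag] at h8
              exact absurd h8 (by decide)
          rw [h6, if_pos ho, ZMod.natCast_eq_one_iff_odd.2 ho, Nat.cast_one]
          decide
        · rw [if_neg ho, Nat.cast_zero, add_zero]
          exact Finset.sum_eq_zero fun x _ => if_neg fun h => ho h.2
      have h5 := PfT_four _ h4
      rw [Nat.cast_add, mul_add] at h5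
      have h6 := PfT_four' (((if Odd (cn Q t (Ts u)) then 1 else 0 : ℕ)) : ZMod 4)
      linear_combination h5 - h6
    rw [h3, h2] at h1
    have h7 : (2 : ZMod 4) * ((cn Q t (Ts u) / 2 : ℕ) : ZMod 4) +
        2 * ((if Odd (cn Q t (Ts u)) then 1 else 0 : ℕ) : ZMod 4) =
        2 * (((cn Q t (Ts u) + 1) / 2 : ℕ) : ZMod 4) := by
      rw [← mul_add, ← Nat.cast_add]
      congr 2
      by_cases ho : Odd (cn Q t (Ts u))
      · rw [if_pos ho]
        obtain ⟨m, hm⟩ := ho
        omega
      · rw [if_neg ho]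
        rw [Nat.not_odd_iff_even] at ho
        obtain ⟨m, hm⟩ := ho
        omega
    rw [h7] at h1
    have h6 := PfT_four' (∑ x ∈ (insert t (Ts u))ᶜ, (MX Q t (Ts u) (Td u) x : ZMod 4))
    linear_combination h1 - h6
  -- the end
  have hE : ∑ v ∈ univ.filter (fun v : W → K => L Q v t = 0 ∧ ∀ x, x ≠ t → Gd Q v x),
      (hh r t v : ZMod 4) = 2 * ((∑ u ∈ TU r t, (cn Q t (Ts u) + 1) / 2 : ℕ) : ZMod 4) := by
    rw [← Nat.cast_sum, hCt1, Nat.cast_sum, Finset.sum_congr rfl hT, Finset.sum_add_distrib,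
      ← Finset.mul_sum, ← Finset.mul_sum]
    have h1 : (2 : ZMod 4) * ∑ u ∈ TU r t, ∑ x ∈ (insert t (Ts u))ᶜ,
        (MX Q t (Ts u) (Td u) x : ZMod 4) = 0 := by
      rw [← hX2]
      push_cast
      rfl
    rw [h1, add_zero, Nat.cast_sum]
  rw [hE] at hS
  obtain ⟨m, hm⟩ := hNb1
  rw [hm] at hS
  have h8 : (2 : ZMod 4) * ((2 * m + 1 : ℕ) : ZMod 4) = ((2 * (2 * m + 1) : ℕ) : ZMod 4) := by
    push_cast
    ring
  rw [h8, ZMod.natCast_eq_zero_iff] at hS
  omega

end Pool.Agent.ECT
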