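import Pool.Agent.ECT.St

/-!
# ECT: the module PrT

The sum of `hh` over a set which is closed under the exchange of the coordinates.
-/

set_option autoImplicit false

namespace Pool.Agent.ECT

open Pool.Agent.ECH Pool.Agent.ECM

private theorem PrT_swp_swp {W : Type} (v : W → K) : swp (swp v) = v := by
  funext x
  rfl

private theorem PrT_e0 {W : Type} (v : W → K) (x : W) : swp v x = k0 ↔ v x = k1 := by
  unfold swp k0 k1
  constructor
  · intro h
    have h1 := congrArg Prod.fst h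
    have h2 := congrArg Prod.snd h
    exact Prod.ext h2 h1
  · intro h
    rw [h]

private theorem PrT_e1 {W : Type} (v : W → K) (x : W) : swp v x = k1 ↔ v x = k0 := by
  unfold swp k0 k1
  constructor
  · intro h
    have h1 := congrArg Prod.fst h
    have h2 := congrArg Prod.snd h
    exact Prod.ext h2 h1
  · intro h
    rw [h]

private theorem PrT_e2 {W : Type} (v : W → K) (x : W) : swp v x = k2 ↔ v x = k2 := by
  unfold swp k2
  constructor
  · intro h
    have h1 := congrArg Prod.fst h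
    have h2 := congrArg Prod.snd h
    exact Prod.ext h2 h1
  · intro h
    rw [h]

private theorem PrT_01 : k0 ≠ k1 := by decide
private theorem PrT_02 : k0 ≠ k2 := by decide
private theorem PrT_12 : k1 ≠ k2 := by decide

private theorem PrT_fix {W : Type} [Fintype W] [DecidableEq W] (r : W → ℕ) (t : W) (v : W → K)
    (h : swp v = v) : hh r t v = 0 := by
  unfold hh
  rw [Finset.card_eq_zero, Finset.filter_eq_empty_iff]
  rintro u _ ⟨h0, _, _⟩
  have h1 : swp v u.1 = k0 := by rw [h]; exact h0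
  rw [PrT_e0] at h1
  exact PrT_01 (h0.symm.trans h1)

private theorem PrT_TU {W : Type} [Fintype W] [DecidableEq W] (r : W → ℕ) (t : W)
    (u : W × W × W) : u ∈ TU r t ↔ (r u.1 < r u.2.1 ∧ u.2.2 ≠ u.1 ∧ u.2.2 ≠ u.2.1) ∧
      t ≠ u.1 ∧ t ≠ u.2.1 ∧ t ≠ u.2.2 := by
  simp only [TU, TT, Ts, Finset.mem_filter, Finset.mem_univ, true_and, Finset.mem_insert,
    Finset.mem_singleton, not_or]

private theorem PrT_hh {W : Type} [Fintype W] [DecidableEq W] (r : W → ℕ) (t : W)
    (hr : Function.Injective r) (v : W → K) :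
    hh r t v + hh r t (swp v) = Nr t v k0 * Nr t v k1 * Nr t v k2 := by
  classical
  let P : Finset (W × W × W) := (Finset.univ.filter fun x => x ≠ t ∧ v x = k0) ×ˢ
    ((Finset.univ.filter fun x => x ≠ t ∧ v x = k1) ×ˢ
      (Finset.univ.filter fun x => x ≠ t ∧ v x = k2))
  have hP : P.card = Nr t v k0 * Nr t v k1 * Nr t v k2 := by
    simp only [P, Finset.card_product, Nr]
    ring
  have hmem : ∀ u : W × W × W, u ∈ P ↔ (u.1 ≠ t ∧ v u.1 = k0) ∧ (u.2.1 ≠ t ∧ v u.2.1 = k1) ∧
      (u.2.2 ≠ t ∧ v u.2.2 = k2) := by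
    intro u
    simp [P]
  have h1 : hh r t v = (P.filter fun u => r u.1 < r u.2.1).card := by
    unfold hh
    congr 1
    ext u
    simp only [Finset.mem_filter, hmem, PrT_TU]
    constructor
    · rintro ⟨⟨⟨a, _, _⟩, n1, n2, n3⟩, b1, b2, b3⟩
      exact ⟨⟨⟨n1.symm, b1⟩, ⟨n2.symm, b2⟩, ⟨n3.symm, b3⟩⟩, a⟩
    · rintro ⟨⟨⟨n1, a⟩, ⟨n2, b⟩, ⟨n3, c⟩⟩, d⟩
      refine ⟨⟨⟨d, ?_, ?_⟩, n1.symm, n2.symm, n3.symm⟩, a, b, c⟩
      · intro e
        rw [e, a] at c
        exact PrT_02 c
      · intro e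
        rw [e, b] at c
        exact PrT_12 c
  have h2 : hh r t (swp v) = (P.filter fun u => ¬ r u.1 < r u.2.1).card := by
    unfold hh
    refine Finset.card_nbij' (fun u => (u.2.1, u.1, u.2.2)) (fun u => (u.2.1, u.1, u.2.2))
      ?_ ?_ ?_ ?_
    · intro u hu
      simp only [Finset.mem_coe, Finset.mem_filter, PrT_TU, PrT_e0, PrT_e1, PrT_e2] at hu
      simp only [Finset.mem_coe, Finset.mem_filter, hmem]
      obtain ⟨⟨⟨a, _, _⟩, n1, n2, n3⟩, b, c, d⟩ := hu
      exact ⟨⟨⟨n2.symm, c⟩, ⟨n1.symm, b⟩, ⟨n3.symm, d⟩⟩, not_lt.mpr a.le⟩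
    · intro u hu
      simp only [Finset.mem_coe, Finset.mem_filter, hmem] at hu
      simp only [Finset.mem_coe, Finset.mem_filter, PrT_TU, PrT_e0, PrT_e1, PrT_e2]
      obtain ⟨⟨⟨n1, a⟩, ⟨n2, b⟩, ⟨n3, c⟩⟩, d⟩ := hu
      refine ⟨⟨⟨?_, ?_, ?_⟩, n2.symm, n1.symm, n3.symm⟩, b, a, c⟩
      · refine lt_of_le_of_ne (not_lt.mp d) ?_
        intro e
        have e1 := hr e
        rw [e1, a] at b
        exact PrT_01 b
      · intro e
        rw [e, b] at c
        exact PrT_12 c
      · intro e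
        rw [e, a] at c
        exact PrT_02 c
    · intro u _
      rfl
    · intro u _
      rfl
  rw [h1, h2, ← hP]
  exact Finset.card_filter_add_card_filter_not (s := P) (fun u : W × W × W => r u.1 < r u.2.1)

theorem thm_PrT : St_PrT := by
  intro W _ _ r t hr m S hS hd
  refine Finset.sum_involution (fun v _ => swp v) ?_ ?_ ?_ ?_
  · intro v hv
    have h := PrT_hh r t hr v
    have h1 : ((hh r t v + hh r t (swp v) : ℕ) : ZMod m) = 0 := by
      rw [h]
      exact (ZMod.natCast_eq_zero_iff _ _).mpr (hd v hv)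
    push_cast at h1
    exact h1
  · intro v _ hne heq
    apply hne
    rw [PrT_fix r t v heq]
    simp
  · intro v hv
    exact hS v hv
  · intro v _
    exact PrT_swp_swp v

end Pool.Agent.ECT
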