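import Pool.Agent.ECT.St

/-!
# ECT, module QeT (helper95): the graph of a cyclic order and of two cyclic orders has even degrees
-/

set_option autoImplicit false

namespace Pool.Agent.ECT

open Pool.Agent.ECH Pool.Agent.ECM

private theorem QeT_image {V : Type} (F : Finset V) (b : V → ℕ)
    (hb : ∀ x ∈ F, ∀ y ∈ F, b x = b y → x = y) (hlt : ∀ x ∈ F, b x < F.card) :
    F.image b = Finset.range F.card := by
  classical
  refine Finset.eq_of_subset_of_card_le (fun k hk => ?_) ?_
  · obtain ⟨x, hx, rfl⟩ := Finset.mem_image.1 hk
    exact Finset.mem_range.2 (hlt x hx)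
  · rw [Finset.card_image_of_injOn fun x hx y hy h => hb x hx y hy h, Finset.card_range]

private theorem QeT_sum {V : Type} (F : Finset V) (b : V → ℕ)
    (hb : ∀ x ∈ F, ∀ y ∈ F, b x = b y → x = y) (hlt : ∀ x ∈ F, b x < F.card) (f : ℕ → ZMod 2) :
    ∑ y ∈ F, f (b y) = ∑ k ∈ Finset.range F.card, f k := by
  classical
  rw [← QeT_image F b hb hlt, Finset.sum_image fun x hx y hy h => hb x hx y hy h]

private theorem QeT_less {V : Type} (F : Finset V) (b : V → ℕ)
    (hb : ∀ x ∈ F, ∀ y ∈ F, b x = b y → x = y) (hlt : ∀ x ∈ F, b x < F.card) (x : V) (hx : x ∈ F) :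
    ∑ y ∈ F, (if b y < b x then (1 : ZMod 2) else 0) = (b x : ZMod 2) := by
  rw [QeT_sum F b hb hlt (fun k => if k < b x then (1 : ZMod 2) else 0), ← Finset.sum_filter]
  have h1 : (Finset.range F.card).filter (fun k => k < b x) = Finset.range (b x) := by
    ext k
    have := hlt x hx
    simp only [Finset.mem_filter, Finset.mem_range]
    omega
  rw [h1]
  simp

private theorem QeT_two (p : ZMod 2) : p + p = 0 := CharTwo.add_self_eq_zero p

private theorem QeT_tri (m n : ℕ) (hm : ((m : ℕ) : ZMod 2) = 1) (hn : ((n : ℕ) : ZMod 2) = 0) :
    ∑ k ∈ Finset.range (m + n), (k : ZMod 2) =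
      ∑ k ∈ Finset.range m, (k : ZMod 2) + ∑ k ∈ Finset.range n, (k : ZMod 2) := by
  rw [Finset.sum_range_add]
  have h1 : ∑ k ∈ Finset.range n, ((m + k : ℕ) : ZMod 2) = ∑ k ∈ Finset.range n, (k : ZMod 2) := by
    have h2 : ∀ k ∈ Finset.range n, ((m + k : ℕ) : ZMod 2) = 1 + (k : ZMod 2) := by
      intro k _
      rw [Nat.cast_add, hm]
    rw [Finset.sum_congr rfl h2, Finset.sum_add_distrib, Finset.sum_const, Finset.card_range,
      nsmul_eq_mul, hn, zero_mul, zero_add]
  rw [h1]

theorem thm_QeT : St_QeT := by
  intro V _ _ α β a b s ha hb h1 h2
  have hl1 : (((Finset.univ.filter fun x : V => s x = false).card : ℕ) : ZMod 2) = 1 := by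
    obtain ⟨k, hk⟩ := h1
    rw [hk]
    push_cast
    rw [show (2 : ZMod 2) = 0 from rfl]
    ring
  have hl2 : (((Finset.univ.filter fun x : V => s x = true).card : ℕ) : ZMod 2) = 0 := by
    obtain ⟨k, hk⟩ := h2
    rw [hk, Nat.cast_add]
    exact QeT_two _
  -- the classes
  have hbi : ∀ c : Bool, ∀ x ∈ (Finset.univ.filter fun x : V => s x = c),
      ∀ y ∈ (Finset.univ.filter fun x : V => s x = c), b x = b y → x = y := by
    intro c x hx y hy h
    exact hb.inj x y (((Finset.mem_filter.1 hx).2).trans (Finset.mem_filter.1 hy).2.symm) h
  have hbl : ∀ c : Bool, ∀ x ∈ (Finset.univ.filter fun x : V => s x = c),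
      b x < (Finset.univ.filter fun x : V => s x = c).card := by
    intro c x hx
    have h3 := hb.lt x
    rw [(Finset.mem_filter.1 hx).2] at h3
    exact h3
  have hai : ∀ x ∈ (Finset.univ : Finset V), ∀ y ∈ (Finset.univ : Finset V), a x = a y → x = y :=
    fun x _ y _ h => ha.inj h
  have hal : ∀ x ∈ (Finset.univ : Finset V), a x < (Finset.univ : Finset V).card :=
    fun x _ => by rw [Finset.card_univ]; exact ha.lt x
  have hn : (Finset.univ : Finset V).card = (Finset.univ.filter fun x : V => s x = false).card +
      (Finset.univ.filter fun x : V => s x = true).card := by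
    rw [← Finset.card_filter_add_card_filter_not (s := (Finset.univ : Finset V))
      (fun x : V => s x = false)]
    simp only [Bool.not_eq_false]
  have hsplit : ∀ f : V → ZMod 2, ∑ y, f y = ∑ y ∈ (Finset.univ.filter fun x : V => s x = false), f y +
      ∑ y ∈ (Finset.univ.filter fun x : V => s x = true), f y := by
    intro f
    rw [← Finset.sum_filter_add_sum_filter_not (Finset.univ : Finset V) (fun x : V => s x = false) f]
    simp only [Bool.not_eq_false]
  have hS : ∑ y : V, ((a y : ZMod 2) + (b y : ZMod 2)) = 0 := by
    rw [Finset.sum_add_distrib, QeT_sum Finset.univ a hai hal (fun k => (k : ZMod 2)), hn,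
      QeT_tri _ _ hl1 hl2, hsplit (fun y => (b y : ZMod 2)),
      QeT_sum _ b (hbi false) (hbl false) (fun k => (k : ZMod 2)),
      QeT_sum _ b (hbi true) (hbl true) (fun k => (k : ZMod 2))]
    exact QeT_two _
  have key : ∀ x : V, ∑ y : V, Q2 a b s (some x) (some y) = 0 := by
    intro x
    have hax := QeT_less Finset.univ a hai hal x (Finset.mem_univ x)
    cases hsx : s x with
    | false =>
      have h3 : ∀ y : V, Q2 a b s (some x) (some y) = (if a y < a x then (1 : ZMod 2) else 0) +
          ((a y : ZMod 2) + (b y : ZMod 2)) + (if s y = false then
            (if b y < b x then (1 : ZMod 2) else 0) + ((a x : ZMod 2) + (b x : ZMod 2)) else 1) := by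
        intro y
        by_cases hxy : x = y
        · subst hxy
          simp only [Q2, hsx, if_true, lt_irrefl, if_false]
          generalize (a x : ZMod 2) = p
          generalize (b x : ZMod 2) = q
          revert p q
          decide
        · have h4 : a x ≠ a y := fun h => hxy (ha.inj h)
          cases hsy : s y with
          | false =>
            simp only [Q2, hsx, hsy, if_neg hxy, and_self, if_true]
            ring
          | true =>
            simp only [Q2, hsx, hsy, if_neg hxy, and_self, if_true, reduceCtorEq, if_false,
              and_false, true_and]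
            rcases lt_or_gt_of_ne h4 with h5 | h5
            · rw [if_pos h5, if_neg (by omega)]
              ring
            · rw [if_neg (by omega), if_pos h5]
              generalize (a y : ZMod 2) = p
              generalize (b y : ZMod 2) = q
              revert p q
              decide
      rw [Finset.sum_congr rfl fun y _ => h3 y, Finset.sum_add_distrib, Finset.sum_add_distrib, hax,
        hS, hsplit]
      have h5 : ∑ y ∈ (Finset.univ.filter fun x : V => s x = false), (if s y = false then
          (if b y < b x then (1 : ZMod 2) else 0) + ((a x : ZMod 2) + (b x : ZMod 2)) else 1) =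
          (b x : ZMod 2) + ((a x : ZMod 2) + (b x : ZMod 2)) := by
        have h6 : ∀ y ∈ (Finset.univ.filter fun x : V => s x = false), (if s y = false then
          (if b y < b x then (1 : ZMod 2) else 0) + ((a x : ZMod 2) + (b x : ZMod 2)) else 1) =
          (if b y < b x then (1 : ZMod 2) else 0) + ((a x : ZMod 2) + (b x : ZMod 2)) :=
          fun y hy => if_pos (Finset.mem_filter.1 hy).2
        rw [Finset.sum_congr rfl h6, Finset.sum_add_distrib, Finset.sum_const, nsmul_eq_mul, hl1,
          one_mul, QeT_less _ b (hbi false) (hbl false) x
            (Finset.mem_filter.2 ⟨Finset.mem_univ x, hsx⟩)]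
      have h7 : ∑ y ∈ (Finset.univ.filter fun x : V => s x = true), (if s y = false then
          (if b y < b x then (1 : ZMod 2) else 0) + ((a x : ZMod 2) + (b x : ZMod 2)) else 1) = 0 := by
        have h6 : ∀ y ∈ (Finset.univ.filter fun x : V => s x = true), (if s y = false then
          (if b y < b x then (1 : ZMod 2) else 0) + ((a x : ZMod 2) + (b x : ZMod 2)) else 1) =
          (1 : ZMod 2) :=
          fun y hy => if_neg (by rw [(Finset.mem_filter.1 hy).2]; decide)
        rw [Finset.sum_congr rfl h6, Finset.sum_const, nsmul_eq_mul, hl2, zero_mul]
      rw [h5, h7]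
      generalize (a x : ZMod 2) = p
      generalize (b x : ZMod 2) = q
      revert p q
      decide
    | true =>
      have h3 : ∀ y : V, Q2 a b s (some x) (some y) = (if a y < a x then (1 : ZMod 2) else 0) +
          (if s y = false then ((a x : ZMod 2) + (b x : ZMod 2)) else
            (if b y < b x then (1 : ZMod 2) else 0)) := by
        intro y
        by_cases hxy : x = y
        · subst hxy
          simp only [Q2, hsx, if_true, lt_irrefl, if_false, reduceCtorEq, add_zero]
        · cases hsy : s y with
          | false =>
            simp only [Q2, hsx, hsy, if_neg hxy, and_self, if_true, reduceCtorEq, if_false,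
              and_false, true_and, false_and]
          | true =>
            simp only [Q2, hsx, hsy, if_neg hxy, and_self, if_true, reduceCtorEq, if_false,
              and_false, true_and, false_and]
      rw [Finset.sum_congr rfl fun y _ => h3 y, Finset.sum_add_distrib, hax, hsplit]
      have h5 : ∑ y ∈ (Finset.univ.filter fun x : V => s x = false), (if s y = false then
          ((a x : ZMod 2) + (b x : ZMod 2)) else (if b y < b x then (1 : ZMod 2) else 0)) =
          ((a x : ZMod 2) + (b x : ZMod 2)) := by
        have h6 : ∀ y ∈ (Finset.univ.filter fun x : V => s x = false), (if s y = false then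
          ((a x : ZMod 2) + (b x : ZMod 2)) else (if b y < b x then (1 : ZMod 2) else 0)) =
          ((a x : ZMod 2) + (b x : ZMod 2)) :=
          fun y hy => if_pos (Finset.mem_filter.1 hy).2
        rw [Finset.sum_congr rfl h6, Finset.sum_const, nsmul_eq_mul, hl1, one_mul]
      have h7 : ∑ y ∈ (Finset.univ.filter fun x : V => s x = true), (if s y = false then
          ((a x : ZMod 2) + (b x : ZMod 2)) else (if b y < b x then (1 : ZMod 2) else 0)) =
          (b x : ZMod 2) := by
        have h6 : ∀ y ∈ (Finset.univ.filter fun x : V => s x = true), (if s y = false then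
          ((a x : ZMod 2) + (b x : ZMod 2)) else (if b y < b x then (1 : ZMod 2) else 0)) =
          (if b y < b x then (1 : ZMod 2) else 0) :=
          fun y hy => if_neg (by rw [(Finset.mem_filter.1 hy).2]; decide)
        rw [Finset.sum_congr rfl h6, QeT_less _ b (hbi true) (hbl true) x
            (Finset.mem_filter.2 ⟨Finset.mem_univ x, hsx⟩)]
      rw [h5, h7]
      generalize (a x : ZMod 2) = p
      generalize (b x : ZMod 2) = q
      revert p q
      decide
  refine ⟨?_, ?_, ?_, ?_⟩
  · rintro (_ | x)
    · rfl
    · simp [Q2]
  · rintro (_ | x) (_ | y)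
    · rfl
    · rfl
    · rfl
    · by_cases hxy : x = y
      · rw [hxy]
      · have hyx : ¬ y = x := fun h => hxy h.symm
        have h3 : a x ≠ a y := fun h => hxy (ha.inj h)
        cases hsx : s x with
        | false =>
          cases hsy : s y with
          | false =>
            have h4 : b x ≠ b y := fun h => hxy (hb.inj x y (hsx.trans hsy.symm) h)
            simp only [Q2, hsx, hsy, if_neg hxy, if_neg hyx, and_self, if_true]
            generalize (a x : ZMod 2) = p
            generalize (b x : ZMod 2) = q
            generalize (a y : ZMod 2) = r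
            generalize (b y : ZMod 2) = t
            rcases lt_or_gt_of_ne h3 with h5 | h5 <;> rcases lt_or_gt_of_ne h4 with h6 | h6
            · rw [if_neg (by omega), if_neg (by omega), if_pos h5, if_pos h6]
              revert p q r t
              decide
            · rw [if_neg (by omega), if_pos h6, if_pos h5, if_neg (by omega)]
              revert p q r t
              decide
            · rw [if_pos h5, if_neg (by omega), if_neg (by omega), if_pos h6]
              revert p q r t
              decide
            · rw [if_pos h5, if_pos h6, if_neg (by omega), if_neg (by omega)]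
              revert p q r t
              decide
          | true =>
            simp only [Q2, hsx, hsy, if_neg hxy, if_neg hyx, and_self, if_true, reduceCtorEq,
              if_false, and_false, true_and, false_and]
        | true =>
          cases hsy : s y with
          | false =>
            simp only [Q2, hsx, hsy, if_neg hxy, if_neg hyx, and_self, if_true, reduceCtorEq,
              if_false, and_false, true_and, false_and]
          | true =>
            have h4 : b x ≠ b y := fun h => hxy (hb.inj x y (hsx.trans hsy.symm) h)
            simp only [Q2, hsx, hsy, if_neg hxy, if_neg hyx, and_self, if_true, reduceCtorEq,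
              if_false, and_false, true_and, false_and]
            rcases lt_or_gt_of_ne h3 with h5 | h5 <;> rcases lt_or_gt_of_ne h4 with h6 | h6
            · rw [if_neg (by omega), if_neg (by omega), if_pos h5, if_pos h6]
              decide
            · rw [if_neg (by omega), if_pos h6, if_pos h5, if_neg (by omega)]
              decide
            · rw [if_pos h5, if_neg (by omega), if_neg (by omega), if_pos h6]
              decide
            · rw [if_pos h5, if_pos h6, if_neg (by omega), if_neg (by omega)]
              decide
  · rintro (_ | x) hx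
    · exact absurd rfl hx
    · rw [Fintype.sum_option, key x, add_zero]
  · rw [Fintype.sum_option]
    have h3 : ∀ y : V, Q2 a b s none (some y) = if s y = true then (1 : ZMod 2) else 0 := fun y => rfl
    rw [Finset.sum_congr rfl fun y _ => h3 y, ← Finset.sum_filter, Finset.sum_const, nsmul_eq_mul,
      hl2, zero_mul, add_zero]
    rfl

end Pool.Agent.ECT
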