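import Pool.Agent.ECT.Defs
import Pool.Agent.ECM.St
import Pool.Agent.ECH.St

/-!
# ECT: the statements (MP_854819_co, captain helper64)

Theorem: let `G` be the union of a Hamiltonian cycle `A` and of two disjoint cycles `B1`, `B2` which
together contain all vertices, all three edge-disjoint, with `B1.length = 3` and `B2.length = 2` modulo
four. Then `G` has an even circuit decomposition.

Every `def St_X : Prop` is a module `Pool/Agent/ECT/X.lean` with `theorem thm_X : St_X` or
`theorem thm_X (h : St_Y) .. : St_X`. Many modules are variants of modules of ECM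
(`Pool/Agent/ECM/X.lean`, all on main): copy and change the proof there.
-/

set_option autoImplicit false

namespace Pool.Agent.ECT

open SimpleGraph Pool.Agent.ECH Pool.Agent.ECM Pool.Agent.CEC

/-- [ExT] (variant of `Pool/Agent/ECM/Ex.lean`) the number of the good colourings and the linear
systems.
Proof. As [Ex] of ECM; `f t = 0` and `L (Mf Q D f) v t = L Q v t`, so the equation at `t` is
`L Q v t = 0`. For fixed `v` with `v = d` on `D` and `L Q v t = 0` the number of the `f` is the product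
over `x` outside of `insert t D` of `ζ (v x) (L Q v x)`, and one concludes as in [Ex]. -/
def St_ExT : Prop := ∀ (W : Type) [Fintype W] [DecidableEq W] (Q : W → W → ZMod 2) (t : W)
  (D : Finset W) (d : W → K), t ∉ D →
  (MM Q t D d : ZMod 4) + 2 * ∑ x ∈ (insert t D)ᶜ, (MX Q t D d x : ZMod 4) =
    ∑ f ∈ Finset.univ.filter (fun f : W → ZMod 2 => ∀ x ∈ insert t D, f x = 0),
      ((Finset.univ.filter fun v : W → K => ∀ x, L (Mf Q D f) v x = if x ∈ D then d x else 0).card :
        ZMod 4)

/-- [HoT] (variant of `Pool/Agent/ECM/Ho.lean`) the colourings with `d = 0`, modulo two.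
Proof. `swp` is an involution of the two sets; count the fixed points (all values are `0` or `k2`).
`MM`: `v = k2` outside of `D` and `t`, `v = 0` on `D`, `v t` is `0` or `k2`; they are good outside of
`D`, `t`, and `L Q v t` is `cn Q t D` times `k2`; so there are `2` or `0` fixed points.
`MX` (`x ∉ D`, `x ≠ t`): `v = k2` outside of `D`, `t`, `x`; `v x = 0`; `v t = 0` or `k2`. `L Q v t` is
`cn Q t D - [Q t x = 1]` times `k2`, and `L Q v x = s + Q x t * v t` with a fixed `s` in `{0, k2}`. If
`Q t x = 0` the two conditions do not depend on `v t`, so the number is even. If `Q t x = 1` the second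
condition holds for exactly one value of `v t` and the first one iff `cn Q t D` is odd. -/
def St_HoT : Prop := ∀ (W : Type) [Fintype W] [DecidableEq W] (Q : W → W → ZMod 2), SyG Q →
  ∀ (t : W) (D : Finset W), t ∉ D →
  Even (MM Q t D (fun _ => 0)) ∧ ∀ x, x ∉ D → x ≠ t →
    (MX Q t D (fun _ => 0) x : ZMod 2) = if Q t x = 1 ∧ Odd (cn Q t D) then 1 else 0

/-- [TrT] (from [ExT] and `St_Tk` of ECM; as `Pool/Agent/ECM/Tr.lean`). -/
def St_TrT : Prop := ∀ (W : Type) [Fintype W] [DecidableEq W] (Q : W → W → ZMod 2) (t : W)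
  (D : Finset W) (d : W → K), t ∉ D →
  (MM Q t D d : ZMod 4) + 2 * ∑ x ∈ (insert t D)ᶜ, (MX Q t D d x : ZMod 4) =
    (MM Q t D (fun _ => 0) : ZMod 4) + 2 * ∑ x ∈ (insert t D)ᶜ, (MX Q t D (fun _ => 0) x : ZMod 4)

/-- [EvT] from [TrT] and [HoT]. -/
def St_EvT : Prop := ∀ (W : Type) [Fintype W] [DecidableEq W] (Q : W → W → ZMod 2), SyG Q →
  ∀ (t : W) (D : Finset W) (d : W → K), t ∉ D → Even (MM Q t D d)

/-- [TgT] (uses [EvT]; variant of `Pool/Agent/ECM/Tg.lean`) adding or removing one edge.
Proof. As [Tg] of ECM, with the condition `L Q v t = 0` (unchanged by the edge `a b`, `a, b ≠ t`).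
`E a = E b` for `v ∈ R`: `∑ over x ≠ t of E x = ∑ over x, y ≠ t of Q x y * om (v x) (v y) +
∑ over x ≠ t of Q x t * om (v x) (v t)`; the first sum is `0` by symmetry, the second one is
`om (L Q v t) (v t) = 0`. The difference is `card R - 2 * card R0`, `card R0` is even as before, and
`card R = 6 r` where now `r = MM Q t (insert a (insert b D)) d` is even by [EvT], so `6 r = 0` in
`ZMod 4`. -/
def St_TgT : Prop := ∀ (W : Type) [Fintype W] [DecidableEq W] (Q : W → W → ZMod 2), SyG Q →
  ∀ (t : W) (D : Finset W) (a b : W), t ∉ D → a ≠ b → a ∉ D → b ∉ D → a ≠ t → b ≠ t →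
  (MM (tog Q a b) t D (fun _ => 0) : ZMod 4) = (MM Q t D (fun _ => 0) : ZMod 4)

/-- [BaT] the case without edges outside of `D` and `t`.
Proof. Let `u2 = cn Q t D`, `u1` the number of the other vertices outside of `insert t D`. `v = 0` on `D`. For
`x ∉ insert t D`: `L Q v x = (Q x t * (v t).1, Q x t * (v t).2)`. So `v` is counted iff `v x ≠ 0` for all
`x ∉ insert t D`, `v t = 0` or `v x = v t` for all neighbours `x` of `t` outside of `D`, and the sum of
`v x` over these neighbours is `0`. If `v t = 0`: `3 ^ u1 * w u2` colourings, where `w u` is the number of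
the sequences of `u` nonzero elements of `K` with sum `0`: `w 0 = 1`, `w (u + 1) = 3 ^ u - w u` (the last
element is the sum of the others, which must not be `0`). For each of the three values `v t ≠ 0`:
`3 ^ u1` colourings if `u2` is even, otherwise none. So the number is
`3 ^ u1 * (w u2 + (if Even u2 then 3 else 0))`. Modulo four `w u` is `1, 0, 3, 2` for `u = 0, 1, 2, 3` modulo
four, and `3 ^ u1` is `1` or `3` for even and odd `u1`. As `u1 + u2` is even: `u2 = 0`: `1 + 3 = 0`; `u2 = 1`:
`3 * 0 = 0`; `u2 = 2`: `3 + 3 = 2`; `u2 = 3`: `3 * 2 = 2` (all modulo four). This is `2 * (u2 / 2)`.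
(Suggestion: split the functions with `Fintype.piFinset`, or prove a lemma by induction on a finite
set for the number of functions with nonzero values and a given sum.) -/
def St_BaT : Prop := ∀ (W : Type) [Fintype W] [DecidableEq W] (Q : W → W → ZMod 2), SyG Q →
  ∀ (t : W) (D : Finset W), t ∉ D → Even (insert t D)ᶜ.card →
  (∀ x y, x ∉ insert t D → y ∉ insert t D → Q x y = 0) →
  (MM Q t D (fun _ => 0) : ZMod 4) = 2 * ((cn Q t D / 2 : ℕ) : ZMod 4)

/-- [NhT] (uses [TgT] and [BaT]; variant of `Pool/Agent/ECM/Nh.lean`) the general case.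
Proof. Induction on the number of the edges outside of `insert t D` (`ed Q r (insert t D)` for an
injective `r`, for example from `Fintype.equivFin`): `tog Q a b` changes neither the hypotheses nor
`cn Q t D` nor (by [TgT]) the left side modulo four. -/
def St_NhT : Prop := ∀ (W : Type) [Fintype W] [DecidableEq W] (Q : W → W → ZMod 2), SyG Q →
  ∀ (t : W) (D : Finset W), t ∉ D → Even (insert t D)ᶜ.card →
  (MM Q t D (fun _ => 0) : ZMod 4) = 2 * ((cn Q t D / 2 : ℕ) : ZMod 4)

/-- [AuT] (variant of `Pool/Agent/ECM/Au.lean`) the conditions at the three vertices are automatic.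
Proof. Let `k ≠ 0`, `E z := om (v z) (L Q v z)`. `∑ over z ≠ t with v z = k of E z` is
`∑ over z ≠ t, v z = k, y ≠ t of Q z y * om k (v y) + ∑ over z ≠ t, v z = k of Q z t * om k (v t)`. With
`om k (v y) = 1 + [v y = k] + [v y = 0]` and `∑ over y ≠ t of Q z y = 0` (`deg`) the first sum is
`∑ over z, y ≠ t, v z = k, v y = 0 of Q z y`; the second one is `M k * om k (v t)`, where
`M k := ∑ over z ≠ t, v z = k of Q z t`.
First part (no zeros outside of `t`): `L Q v t = 0` says `M k1 + M k2 = 0`, `M k0 + M k2 = 0`, and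
`M k0 + M k1 + M k2 = ∑ y, Q t y = 0` (`degt`), so all `M k` are `0`, so the sum is `0`, and as in [Au] of
ECM the three conditions follow.
Second part (the only zero outside of `t` is `x`): let `B k := ∑ over z ≠ t, v z = k of Q x z`; the sum
of the `E z` is `B k + M k * om k (v t)`. `B k0 + B k1 + B k2 = 0` (`deg` at `x`). Now
`M k0 + M k1 + M k2 = Q t x` and (`L Q v t = 0`) all `M k` are equal, so `M k = Q t x` for all `k`
(`3 = 1`). `L Q v x = 0` says `(B k1 + B k2, B k0 + B k2) + Q x t * v t = 0`. If `Q x t = 0` then all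
`B k` and `M k` are `0`. If `Q x t = 1` then `v t = (B k1 + B k2, B k0 + B k2) = (B k0, B k1)` and
`om k (v t) = B k` for the three `k` (`om k0 w = w.1`, `om k1 w = w.2`, `om k2 w = w.1 + w.2`), `M k = 1`,
so the sum is `B k + B k = 0`. -/
def St_AuT : Prop := ∀ (W : Type) [Fintype W] [DecidableEq W] (Q : W → W → ZMod 2) (t : W),
  Pool.Agent.ECT.EvT Q t →
  ∀ (v : W → K) (u : W × W × W), t ∉ Ts u → v u.1 = k0 → v u.2.1 = k1 → v u.2.2 = k2 →
  L Q v t = 0 →
  ((∀ z, z ≠ t → v z ≠ 0) → (∀ z, z ∉ Ts u → z ≠ t → om (v z) (L Q v z) = 0) →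
    ∀ z, z ≠ t → Gd Q v z) ∧
  (∀ x, x ≠ t → v x = 0 → L Q v x = 0 → (∀ z, z ≠ t → z ≠ x → v z ≠ 0) →
    (∀ z, z ∉ Ts u → z ≠ t → z ≠ x → om (v z) (L Q v z) = 0) → ∀ z, z ≠ t → z ≠ x → Gd Q v z)

/-- [CtT] (uses [AuT]; variant of `Pool/Agent/ECM/Ct.lean`) double counting. -/
def St_CtT : Prop := ∀ (W : Type) [Fintype W] [DecidableEq W] (Q : W → W → ZMod 2) (t : W),
  Pool.Agent.ECT.EvT Q t → ∀ r : W → ℕ,
  (∑ v ∈ Finset.univ.filter (fun v : W → K => L Q v t = 0 ∧ ∀ x, x ≠ t → Gd Q v x), hh r t v =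
    ∑ u ∈ TU r t, MM Q t (Ts u) (Td u)) ∧
  ∀ x, x ≠ t → ∑ v ∈ Finset.univ.filter (fun v : W → K => L Q v t = 0 ∧ v x = 0 ∧ L Q v x = 0 ∧
      ∀ z, z ≠ t → z ≠ x → Gd Q v z),
    hh r t v = ∑ u ∈ (TU r t).filter (fun u => x ∉ Ts u), MX Q t (Ts u) (Td u) x

/-- [PrT] (variant of `Pool/Agent/ECM/Pr.lean`) the sum of `hh`.
Proof. `hh r t v + hh r t (swp v) = Nr t v k0 * Nr t v k1 * Nr t v k2`, as in [Pr] of ECM. -/
def St_PrT : Prop := ∀ (W : Type) [Fintype W] [DecidableEq W] (r : W → ℕ) (t : W),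
  Function.Injective r →
  ∀ (m : ℕ) (S : Finset (W → K)), (∀ v ∈ S, swp v ∈ S) →
  (∀ v ∈ S, m ∣ Nr t v k0 * Nr t v k1 * Nr t v k2) → ∑ v ∈ S, (hh r t v : ZMod m) = 0

/-- [NbT] a number.
Proof. Let `C` be the set of the neighbours of `t` (`4 j + 2` elements, `t ∉ C`), `B` the set of the other
vertices without `t` (`4 k + 1 - (4 j + 2)` elements, which is `3` modulo four). For `u ∈ TU r t` with `i`
vertices in `C`: `cn Q t (Ts u) = 4 j + 2 - i`, and `(4 j + 2 - i + 1) / 2` is `2 j + 1`, `2 j + 1`, `2 j`,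
`2 j` for `i = 0, 1, 2, 3`. So the sum is modulo two the number of the `u` with `i = 0` or `i = 1`. The
number of the `u` with `i = 0` (all three in `B`, `w := card B`): `w (w - 1) / 2 * (w - 2)`, which is odd
(`w = 3` modulo four). The number of the `u` with `i = 1`: with `u.2.2 ∈ C`:
`w (w - 1) / 2 * (4 j + 2)`, even; with `u.1 ∈ C` or `u.2.1 ∈ C` (and the other two in `B`):
`(4 j + 2) * w * (w - 1)` (one vertex `c ∈ C`, one vertex `b ∈ B`, `r c < r b` or `r b < r c`, and a
third vertex in `B`), even. -/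
def St_NbT : Prop := ∀ (W : Type) [Fintype W] [DecidableEq W] (Q : W → W → ZMod 2) (t : W)
  (r : W → ℕ), Function.Injective r → Q t t = 0 → ∀ j k : ℕ, Fintype.card W = 4 * k + 2 →
  cn Q t ∅ = 4 * j + 2 → Odd (∑ u ∈ TU r t, (cn Q t (Ts u) + 1) / 2)

/-- [PfT] (uses [TrT], [HoT], [NhT], [CtT], [PrT], [NbT]; variant of `Pool/Agent/ECM/Pf.lean`) a
partition.
Proof. Suppose there is none; then `4` divides `Nr t v k0 * Nr t v k1 * Nr t v k2` for all `v` with
`L Q v t = 0` which are good outside of `t` (the three numbers have the sum `4 k + 1`). As in [Pf] of ECM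
`0 = ∑ u ∈ TU r t, MM Q t (Ts u) (Td u)` in `ZMod 4`, the sum of the corrections
`2 ∑ x, MX Q t (Ts u) (Td u) x` over `u` is `0` (the sum of the three numbers is `4 k` for the `v` with
one zero), and by [NhT] and [HoT] `MM Q t (Ts u) 0 + 2 ∑ x, MX Q t (Ts u) 0 x` is
`2 (c / 2) + 2 (if Odd c then c else 0) = 2 ((c + 1) / 2)` in `ZMod 4` with `c = cn Q t (Ts u)`
(`4 k - 2` vertices outside of `insert t (Ts u)`). So `0` is `2` times an odd number by [NbT]. -/
def St_PfT : Prop := ∀ (W : Type) [Fintype W] [DecidableEq W] (Q : W → W → ZMod 2) (t : W),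
  Pool.Agent.ECT.EvT Q t → ∀ j k : ℕ, Fintype.card W = 4 * k + 2 → cn Q t ∅ = 4 * j + 2 →
  ∃ v : W → K, (∀ x, x ≠ t → Gd Q v x) ∧ L Q v t = 0 ∧
    Odd (Nr t v k0) ∧ Odd (Nr t v k1) ∧ Odd (Nr t v k2)

/-- [QeT] the graph `Q2 a b s` has even degrees.
Proof. Let `B1`, `B2` be the classes `s = false`, `s = true`, `l1` odd, `l2` even their sizes, `n = l1 + l2`,
`S x := a x + b x` in `ZMod 2`. `symm`: for `x ≠ y` exactly one of `a y < a x`, `a x < a y` holds, and the
same for `b` if `s x = s y`. `degt`: `l2` is even. `deg`: `∑ y, Q2 a b s (some x) (some y) = 0`. For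
`x ∈ B1`: `(number of y ∈ B1 with a y < a x) + (number of y ∈ B1 with b y < b x) + (l1 - 1) S x +
(∑ over y ∈ B1, y ≠ x of S y) + (number of y ∈ B2 with a x < a y) + ∑ over y ∈ B2 of S y`. The number of
`y ∈ B2` with `a x < a y` is `l2` minus the number with `a y < a x`, so the counts give
`a x + b x = S x`; the rest is `∑ y, S y - S x`, and
`∑ y, S y = ∑ k < n, k + ∑ k < l1, k + ∑ k < l2, k = l1 * l2 + 2 (..) = 0`. For `x ∈ B2`: the number of the
`y` with `a y < a x`, plus `l1 * S x`, plus the number of the `y ∈ B2` with `b y < b x`: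
`a x + S x + b x = 0`. -/
def St_QeT : Prop := ∀ (V : Type) [Fintype V] [DecidableEq V] (α β : Equiv.Perm V) (a b : V → ℕ)
  (s : V → Bool), Cyc α a → Cy2 β b s → Odd (Finset.univ.filter fun x => s x = false).card →
  Even (Finset.univ.filter fun x => s x = true).card →
  Pool.Agent.ECT.EvT (Q2 a b s) (none : Option V)

/-- [AsT] (uses `St_Mx` of ECH) from the colouring to the decomposition.
Proof. Write `v x` for `v (some x)`, `κ := v none`, `S x := a x + b x` in `ZMod 2`. The sum of the `v x` over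
each class of `s` is `0` (for `s = true` it is `L (Q2 a b s) v none = 0`), so `∑ x, v x = 0`.
`PA x := ∑ over y with a y ≤ a x of v y`, `PB x := ∑ over y with s y = s x, b y ≤ b x of v y`. As in the
first part of `St_Sm` of ECH: `PA (α x) = PA x + v (α x)` and `PB (β x) = PB x + v (β x)` (at the last
position because the total sum is `0`). Let `c := ∑ y, S y • v y`, `fa x := PA x + c`,
`fb x := PB x + (if s x = true then κ + c else 0)`. Then `fa x + fb x = L (Q2 a b s) v (some x)` (*), which
is `0` or `v x` as `v` is good. Apply `St_Mx` with `I = K`: for `x = α y = β z`: `fa x = fa y + v x`,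
`fb x = fb z + v x` (`s z = s x`), `v x ≠ 0`; if `fa x + fb x = 0` the first alternative holds, if
`fa x + fb x = v x` the second one.
Proof of (*), `s x = false`: `L (Q2 a b s) v (some x)` is
`∑ over y ≠ x, s y = false of ([a y < a x] + [b y < b x]) v y + ∑ over s y = false of (S x + S y) v y +
∑ over s y = true of [a x < a y] v y + ∑ over s y = true of S y v y`; here
`∑ over s y = false of S x v y = 0`, `∑ over s y = true of [a x < a y] v y =
∑ over s y = true of [a y < a x] v y` (the sum of the `v y` is `0`), so it is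
`(PA x - v x) + (PB x - v x) + c = PA x + PB x + c`. `s x = true`: it is `κ` (from `none`) plus
`∑ over s y = false of ([a y < a x] + S x) v y + ∑ over y ≠ x, s y = true of ([a y < a x] + [b y < b x]) v y
= PA x + PB x`. (One may also work with the two coordinates separately.) -/
def St_AsT : Prop := ∀ (V : Type) [Fintype V] [DecidableEq V] (α β : Equiv.Perm V) (a b : V → ℕ)
  (s : V → Bool), Reg4 α β → Cyc α a → Cy2 β b s → ∀ v : Option V → K,
  (∀ x : V, Gd (Q2 a b s) v (some x)) → L (Q2 a b s) v none = 0 →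
  (∑ x : V, if s x = false then v (some x) else 0) = 0 → HasECD (PG α β)

/-- [HmT] the positions for two disjoint cycles.
Proof. `s x := decide (x ∈ B2.support)`. The vertices of `B1` are `B1.getVert i`, `i < B1.length`, without
repetition, the same for `B2`; `b x` is the index, `β x` is the next vertex of the same cycle. See
`Pool/Agent/ECH/Ham.lean` (there for one Hamiltonian cycle). -/
def St_HmT : Prop := ∀ (V : Type) [Fintype V] [DecidableEq V] (G : SimpleGraph V) (v w : V)
  (B1 : G.Walk v v) (B2 : G.Walk w w), B1.IsCycle → B2.IsCycle →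
  (∀ x ∈ B1.support, x ∉ B2.support) → (∀ x, x ∈ B1.support ∨ x ∈ B2.support) →
  ∃ (β : Equiv.Perm V) (b : V → ℕ) (s : V → Bool), Cy2 β b s ∧
    (Finset.univ.filter fun x => s x = false).card = B1.length ∧
    (Finset.univ.filter fun x => s x = true).card = B2.length ∧
    ∀ x y, (s(x, y) ∈ B1.edges ∨ s(x, y) ∈ B2.edges) ↔ (y = β x ∨ x = β y)

/-- [FnT] (uses [PfT], [QeT], [AsT], [HmT] and `St_Ham` of ECH) the theorem. -/
def St_FnT : Prop := ∀ (V : Type) [Fintype V] [DecidableEq V] (G : SimpleGraph V) (u v w : V)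
  (A : G.Walk u u) (B1 : G.Walk v v) (B2 : G.Walk w w), A.IsHamiltonianCycle → B1.IsCycle →
  B2.IsCycle → (∀ x ∈ B1.support, x ∉ B2.support) → (∀ x, x ∈ B1.support ∨ x ∈ B2.support) →
  (∀ e ∈ A.edges, e ∉ B1.edges ∧ e ∉ B2.edges) →
  (∀ e ∈ G.edgeSet, e ∈ A.edges ∨ e ∈ B1.edges ∨ e ∈ B2.edges) →
  B1.length % 4 = 3 → B2.length % 4 = 2 → HasECD G

end Pool.Agent.ECT
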