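import Pool.Agent.ECT.St

/-! # ECT: [TrT] and [EvT] (MP_854819_co) -/

set_option autoImplicit false

namespace Pool.Agent.ECT

open Pool.Agent.ECM

theorem thm_TrT (hT : St_Tk) (hE : St_ExT) : St_TrT := by
  intro W _ _ Q t D d ht
  rw [hE W Q t D d ht, hE W Q t D (fun _ => 0) ht]
  refine Finset.sum_congr rfl fun f _ => ?_
  rw [hT W (Mf Q D f) (fun x => if x ∈ D then d x else 0)]
  have h : (fun x : W => if x ∈ D then (fun _ : W => (0 : K)) x else 0) = fun _ => 0 := by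
    funext x
    simp
  have h2 : ∀ v : W → K, (∀ x, L (Mf Q D f) v x = if x ∈ D then (fun _ : W => (0 : K)) x else 0) ↔
      ∀ x, L (Mf Q D f) v x = 0 := by
    intro v
    refine forall_congr' fun x => ?_
    rw [congrFun h x]
  simp only [h2]

theorem thm_EvT (hTr : St_TrT) (hH : St_HoT) : St_EvT := by
  intro W _ _ Q hQ t D d ht
  have h := hTr W Q t D d ht
  have h0 := (hH W Q hQ t D ht).1
  have h2 : ((MM Q t D d : ℕ) : ZMod 4) + 2 * ((∑ x ∈ (insert t D)ᶜ, MX Q t D d x : ℕ) : ZMod 4) =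
      ((MM Q t D (fun _ => 0) : ℕ) : ZMod 4) +
        2 * ((∑ x ∈ (insert t D)ᶜ, MX Q t D (fun _ => 0) x : ℕ) : ZMod 4) := by
    push_cast
    exact h
  have h3 : ((MM Q t D d + 2 * (∑ x ∈ (insert t D)ᶜ, MX Q t D d x) : ℕ) : ZMod 4) =
      ((MM Q t D (fun _ => 0) + 2 * (∑ x ∈ (insert t D)ᶜ, MX Q t D (fun _ => 0) x) : ℕ) :
        ZMod 4) := by
    rw [Nat.cast_add, Nat.cast_add, Nat.cast_mul, Nat.cast_mul, Nat.cast_two]
    exact h2
  rw [ZMod.natCast_eq_natCast_iff'] at h3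
  obtain ⟨m, hm⟩ := h0
  rw [Nat.even_iff]
  omega

end Pool.Agent.ECT
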